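import Mathlib

/-!
# Skew products on spaces of probability measures
-/

set_option autoImplicit false
set_option linter.unusedSectionVars false

open Filter Topology MeasureTheory

namespace Pool.Agent.Zk39.MC

section

variable {Y Z : Type} [TopologicalSpace Y] [MetricSpace Z] [CompactSpace Z] [MeasurableSpace Z] [BorelSpace Z]

/-- integrals depend continuously on the function and on the measure -/
theorem int_cont {h : Y × Z → ℝ} (hh : Continuous h) :
    Continuous (fun w : Y × ProbabilityMeasure Z => ∫ z, h (w.1, z) ∂(w.2 : Measure Z)) := by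
  rw [continuous_iff_continuousAt]
  rintro ⟨y₀, ν₀⟩
  unfold ContinuousAt
  set hc : C(Y, C(Z, ℝ)) := ContinuousMap.curry ⟨h, hh⟩ with hcdef
  have hcurry : ∀ y z, hc y z = h (y, z) := fun y z => rfl
  have e1 : Tendsto (fun w : Y × ProbabilityMeasure Z => ∫ z, h (y₀, z) ∂(w.2 : Measure Z)) (𝓝 (y₀, ν₀))
      (𝓝 (∫ z, h (y₀, z) ∂(ν₀ : Measure Z))) := by
    have h1 : Tendsto (fun w : Y × ProbabilityMeasure Z => w.2) (𝓝 (y₀, ν₀)) (𝓝 ν₀) := continuous_snd.tendsto _
    have h2 := (ProbabilityMeasure.tendsto_iff_forall_integral_tendsto.1 h1)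
      (BoundedContinuousFunction.mkOfCompact (hc y₀))
    exact h2
  have e2 : Tendsto (fun w : Y × ProbabilityMeasure Z => ∫ z, h (w.1, z) ∂(w.2 : Measure Z) -
      ∫ z, h (y₀, z) ∂(w.2 : Measure Z)) (𝓝 (y₀, ν₀)) (𝓝 0) := by
    have h1 : Tendsto (fun w : Y × ProbabilityMeasure Z => ‖hc w.1 - hc y₀‖) (𝓝 (y₀, ν₀)) (𝓝 0) := by
      have h2 : Continuous fun w : Y × ProbabilityMeasure Z => ‖hc w.1 - hc y₀‖ :=
        ((hc.continuous.comp continuous_fst).sub continuous_const).norm
      have h3 := h2.tendsto (y₀, ν₀)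
      simp only [sub_self, norm_zero] at h3
      exact h3
    refine squeeze_zero_norm (fun w => ?_) h1
    have hi : ∀ y, Integrable (fun z => h (y, z)) (w.2 : Measure Z) := by
      intro y
      refine Integrable.of_bound (hh.comp (Continuous.prodMk_right y)).aestronglyMeasurable ‖hc y‖ ?_
      exact Eventually.of_forall fun z => (hc y).norm_coe_le_norm z
    rw [← integral_sub (hi _) (hi _)]
    refine (norm_integral_le_integral_norm _).trans ?_
    have h4 : ∫ z, ‖h (w.1, z) - h (y₀, z)‖ ∂(w.2 : Measure Z) ≤ ∫ z, ‖hc w.1 - hc y₀‖ ∂(w.2 : Measure Z) := by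
      refine integral_mono ((hi _).sub (hi _)).norm (integrable_const _) fun z => ?_
      exact (hc w.1 - hc y₀).norm_coe_le_norm z
    refine h4.trans (le_of_eq ?_)
    rw [integral_const, probReal_univ, one_smul]
  have e3 := e2.add e1
  rw [zero_add] at e3
  refine e3.congr fun w => ?_
  ring

/-- **Skew products on spaces of probability measures.** -/
theorem fibre_measures [CompactSpace Y] [T2Space Y] {S : Y → Y} {f : Y → Z → Z} (hS : Continuous S)
    (hf : Continuous (fun x : Y × Z => f x.1 x.2)) {T' : Y × ProbabilityMeasure Z → Y × ProbabilityMeasure Z}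
    (hT' : ∀ w, (T' w).1 = S w.1 ∧ ((T' w).2 : Measure Z) = (w.2 : Measure Z).map (f w.1)) : Continuous T' ∧
    ∃ (_ : MeasurableSpace (Y × Z)) (_ : BorelSpace (Y × Z)) (μ : Y × ProbabilityMeasure Z → Measure (Y × Z)),
      (∀ w, IsProbabilityMeasure (μ w)) ∧ (∀ w, ∀ᵐ x ∂(μ w), x.1 = w.1) ∧
      (∀ w, μ (T' w) = (μ w).map (fun x : Y × Z => (S x.1, f x.1 x.2))) ∧
      (∀ F : C(Y × Z, ℝ), Continuous fun w => ∫ x, F x ∂(μ w)) ∧
      (∀ w w', w.1 = w'.1 → (∀ F : C(Y × Z, ℝ), ∫ x, F x ∂(μ w) = ∫ x, F x ∂(μ w')) → w = w') := by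
  have hfy : ∀ y, Continuous (f y) := fun y => hf.comp (Continuous.prodMk_right y)
  refine ⟨?_, ?_⟩
  · have h1 : Continuous fun w => (T' w).1 := by
      have e1 : (fun w => (T' w).1) = fun w : Y × ProbabilityMeasure Z => S w.1 := funext fun w => (hT' w).1
      rw [e1]
      exact hS.comp continuous_fst
    have h2 : Continuous fun w => (T' w).2 := by
      rw [continuous_iff_continuousAt]
      intro w₀
      unfold ContinuousAt
      rw [ProbabilityMeasure.tendsto_iff_forall_integral_tendsto]
      intro φ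
      have e1 : ∀ w, ∫ z, φ z ∂((T' w).2 : Measure Z) = ∫ z, φ (f w.1 z) ∂(w.2 : Measure Z) := by
        intro w
        rw [(hT' w).2, integral_map (hfy w.1).measurable.aemeasurable φ.continuous.aestronglyMeasurable]
      simp only [e1]
      exact (int_cont (h := fun x : Y × Z => φ (f x.1 x.2)) (φ.continuous.comp hf)).tendsto w₀
    exact h1.prodMk h2
  · let _ : MeasurableSpace (Y × Z) := borel (Y × Z)
    have _ : BorelSpace (Y × Z) := ⟨rfl⟩
    have hin : ∀ y : Y, Measurable (fun z : Z => (y, z)) := fun y => (Continuous.prodMk_right y).measurable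
    have hTc : Continuous (fun x : Y × Z => (S x.1, f x.1 x.2)) := (hS.comp continuous_fst).prodMk hf
    have hint : ∀ (F : C(Y × Z, ℝ)) (w : Y × ProbabilityMeasure Z),
        ∫ x, F x ∂((w.2 : Measure Z).map fun z => (w.1, z)) = ∫ z, F (w.1, z) ∂(w.2 : Measure Z) := by
      intro F w
      rw [integral_map (hin w.1).aemeasurable F.continuous.aestronglyMeasurable]
    refine ⟨borel (Y × Z), ⟨rfl⟩, fun w => (w.2 : Measure Z).map fun z => (w.1, z), fun w =>
      Measure.isProbabilityMeasure_map (hin w.1).aemeasurable, fun w => ?_, fun w => ?_, fun F => ?_, ?_⟩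
    · rw [ae_map_iff (hin w.1).aemeasurable]
      · exact Eventually.of_forall fun z => rfl
      · exact (isClosed_singleton.preimage continuous_fst).measurableSet
    · show ((T' w).2 : Measure Z).map (fun z => ((T' w).1, z)) =
        ((w.2 : Measure Z).map fun z => (w.1, z)).map (fun x : Y × Z => (S x.1, f x.1 x.2))
      rw [(hT' w).2, (hT' w).1, Measure.map_map (hin _) (hfy _).measurable, Measure.map_map hTc.measurable (hin _)]
      rfl
    · simp only [hint]
      exact int_cont F.continuous
    · rintro ⟨y, ν⟩ ⟨y', ν'⟩ hy h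
      have hy' : y = y' := hy
      subst hy'
      refine Prod.ext rfl ?_
      have h0 : (ν : Measure Z) = (ν' : Measure Z) := by
        refine ext_of_forall_integral_eq_of_IsFiniteMeasure fun φ => ?_
        have h1 := h ⟨fun x => φ x.2, φ.continuous.comp continuous_snd⟩
        rw [hint, hint] at h1
        exact h1
      exact Subtype.ext h0

end

end Pool.Agent.Zk39.MC
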