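import Pool.Agent.Zk39.MC.Def

/-!
# The system of the limits of lines of a linear cocycle
-/

set_option autoImplicit false
set_option linter.unusedSectionVars false

open Finset Filter Topology

namespace Pool.Agent.Zk39.MC

section

variable {K : Type} [NormedField K] {n : ℕ}

/-- the lines -/
def Lines (K : Type) [NormedField K] (n : ℕ) : Set (((Fin n → K) →ₗ[K] K) → ℝ) :=
  {ν | ∃ v : Fin n → K, v ≠ 0 ∧ ν = fun a => ‖a v‖ / ‖v‖}

/-- a bound for the norm of a functional -/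
noncomputable def Bn (a : (Fin n → K) →ₗ[K] K) : ℝ := ∑ j, ‖a (Pi.single j 1)‖

theorem le_Bn (a : (Fin n → K) →ₗ[K] K) (v : Fin n → K) : ‖a v‖ ≤ Bn a * ‖v‖ := by
  have h1 : a v = ∑ j, v j * a (Pi.single j 1) := by
    conv_lhs => rw [← Finset.univ_sum_single v]
    rw [map_sum]
    refine sum_congr rfl fun j _ => ?_
    have h2 : (Pi.single j (v j) : Fin n → K) = v j • Pi.single j 1 := by
      rw [← Pi.single_smul, smul_eq_mul, mul_one]
    rw [h2, map_smul, smul_eq_mul]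
  rw [h1]
  refine (norm_sum_le _ _).trans ?_
  unfold Bn
  rw [sum_mul]
  refine sum_le_sum fun j _ => ?_
  rw [norm_mul, mul_comm]
  exact mul_le_mul_of_nonneg_left (norm_le_pi_norm v j) (norm_nonneg _)

theorem Bn_nonneg (a : (Fin n → K) →ₗ[K] K) : 0 ≤ Bn a := sum_nonneg fun _ _ => norm_nonneg _

theorem lines_le {ν : ((Fin n → K) →ₗ[K] K) → ℝ} (hν : ν ∈ closure (Lines K n)) (a : (Fin n → K) →ₗ[K] K) :
    0 ≤ ν a ∧ ν a ≤ Bn a := by
  have key : closure (Lines K n) ⊆ {ν | 0 ≤ ν a ∧ ν a ≤ Bn a} := by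
    refine closure_minimal ?_ ?_
    · rintro _ ⟨v, hv, rfl⟩
      have hv0 : 0 < ‖v‖ := norm_pos_iff.2 hv
      refine ⟨by positivity, ?_⟩
      show ‖a v‖ / ‖v‖ ≤ Bn a
      rw [div_le_iff₀ hv0]
      exact le_Bn a v
    · exact (isClosed_le continuous_const (continuous_apply a)).inter (isClosed_le (continuous_apply a) continuous_const)
  exact key hν

theorem lines_lip {ν : ((Fin n → K) →ₗ[K] K) → ℝ} (hν : ν ∈ closure (Lines K n)) (a b : (Fin n → K) →ₗ[K] K) :
    |ν a - ν b| ≤ Bn (a - b) := by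
  have key : closure (Lines K n) ⊆ {ν | |ν a - ν b| ≤ Bn (a - b)} := by
    refine closure_minimal ?_ ?_
    · rintro _ ⟨v, hv, rfl⟩
      have hv0 : 0 < ‖v‖ := norm_pos_iff.2 hv
      show |‖a v‖ / ‖v‖ - ‖b v‖ / ‖v‖| ≤ Bn (a - b)
      rw [← sub_div, abs_div, abs_of_pos hv0, div_le_iff₀ hv0]
      refine (abs_norm_sub_norm_le _ _).trans ?_
      rw [← LinearMap.sub_apply]
      exact le_Bn _ _
    · exact isClosed_le ((continuous_apply a).sub (continuous_apply b)).abs continuous_const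
  exact key hν

theorem lines_compact : IsCompact (closure (Lines K n)) := by
  refine (isCompact_univ_pi fun a : (Fin n → K) →ₗ[K] K => isCompact_Icc (a := (0 : ℝ)) (b := Bn a)).of_isClosed_subset
    isClosed_closure fun ν hν => ?_
  rw [Set.mem_univ_pi]
  exact fun a => lines_le hν a

/-- the stretching of a limit of lines by a linear map -/
noncomputable def stretch (g : (Fin n → K) →ₗ[K] (Fin n → K)) (ν : ((Fin n → K) →ₗ[K] K) → ℝ) : ℝ :=
  ‖fun j : Fin n => ν ((LinearMap.proj j).comp g)‖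

theorem stretch_line (g : (Fin n → K) →ₗ[K] (Fin n → K)) (v : Fin n → K) :
    stretch g (fun a => ‖a v‖ / ‖v‖) = ‖g v‖ / ‖v‖ := by
  unfold stretch
  have h1 : (fun j : Fin n => ‖((LinearMap.proj j : (Fin n → K) →ₗ[K] K).comp g) v‖ / ‖v‖) =
      (‖v‖⁻¹ : ℝ) • fun j : Fin n => ‖g v j‖ := by
    funext j
    rw [LinearMap.comp_apply, LinearMap.proj_apply, Pi.smul_apply, smul_eq_mul, div_eq_inv_mul]
  rw [h1, norm_smul, norm_inv, norm_norm, div_eq_inv_mul]
  congr 1
  simp only [Pi.norm_def, nnnorm_norm]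

theorem stretch_ge {g : (Fin n → K) →ₗ[K] (Fin n → K)} {c : ℝ} (hg : ∀ v, c * ‖v‖ ≤ ‖g v‖)
    {ν : ((Fin n → K) →ₗ[K] K) → ℝ} (hν : ν ∈ closure (Lines K n)) : c ≤ stretch g ν := by
  have key : closure (Lines K n) ⊆ {ν | c ≤ stretch g ν} := by
    refine closure_minimal ?_ ?_
    · rintro _ ⟨v, hv, rfl⟩
      have hv0 : 0 < ‖v‖ := norm_pos_iff.2 hv
      show c ≤ stretch g (fun a => ‖a v‖ / ‖v‖)
      rw [stretch_line, le_div_iff₀ hv0]
      exact hg v
    · refine isClosed_le continuous_const ?_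
      unfold stretch
      exact (continuous_pi fun j => continuous_apply _).norm
  exact key hν

/-- the action of a linear map on limits of lines -/
theorem act_mem {g : (Fin n → K) →ₗ[K] (Fin n → K)} {c : ℝ} (hc : 0 < c) (hg : ∀ v, c * ‖v‖ ≤ ‖g v‖)
    {ν : ((Fin n → K) →ₗ[K] K) → ℝ} (hν : ν ∈ closure (Lines K n)) :
    (fun a : (Fin n → K) →ₗ[K] K => ν (a.comp g) / stretch g ν) ∈ closure (Lines K n) := by
  have h1 : Set.MapsTo (fun ν : ((Fin n → K) →ₗ[K] K) → ℝ => fun a : (Fin n → K) →ₗ[K] K =>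
      ν (a.comp g) / stretch g ν) (Lines K n)
      (Lines K n) := by
    rintro _ ⟨v, hv, rfl⟩
    have hv0 : 0 < ‖v‖ := norm_pos_iff.2 hv
    have hgv0 : 0 < ‖g v‖ := lt_of_lt_of_le (mul_pos hc hv0) (hg v)
    refine ⟨g v, norm_pos_iff.1 hgv0, ?_⟩
    funext a
    simp only [stretch_line, LinearMap.comp_apply]
    rw [div_div_div_cancel_right₀ hv0.ne']
  have h2 : ContinuousOn (fun ν : ((Fin n → K) →ₗ[K] K) → ℝ => fun a : (Fin n → K) →ₗ[K] K =>
      ν (a.comp g) / stretch g ν)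
      (closure (Lines K n)) := by
    refine continuousOn_pi.2 fun a => ContinuousOn.div (continuous_apply _).continuousOn ?_ fun ν hν =>
      (lt_of_lt_of_le hc (stretch_ge hg hν)).ne'
    unfold stretch
    exact ((continuous_pi fun j => continuous_apply _).norm).continuousOn
  exact (h1.closure_of_continuousOn h2) hν

end

section

variable {K : Type} [NontriviallyNormedField K] {n : ℕ} {Y : Type} [TopologicalSpace Y]

theorem joint_cont {g : Y → (Fin n → K) →L[K] (Fin n → K)} (hg : Continuous g) (a : (Fin n → K) →ₗ[K] K) :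
    Continuous fun p : Y × closure (Lines K n) => p.2.1 (a.comp (g p.1 : (Fin n → K) →ₗ[K] (Fin n → K))) := by
  rw [continuous_iff_continuousAt]
  rintro ⟨y₀, ν₀⟩
  unfold ContinuousAt
  rw [tendsto_iff_dist_tendsto_zero]
  have hb : Continuous fun p : Y × closure (Lines K n) =>
      Bn (a.comp (g p.1 : (Fin n → K) →ₗ[K] (Fin n → K)) - a.comp (g y₀ : (Fin n → K) →ₗ[K] (Fin n → K))) +
      |p.2.1 (a.comp (g y₀ : (Fin n → K) →ₗ[K] (Fin n → K))) -
        ν₀.1 (a.comp (g y₀ : (Fin n → K) →ₗ[K] (Fin n → K)))| := by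
    refine Continuous.add ?_ ?_
    · unfold Bn
      refine continuous_finsetSum _ fun j _ => ?_
      refine Continuous.norm ?_
      simp only [LinearMap.sub_apply, LinearMap.comp_apply]
      refine Continuous.sub ?_ continuous_const
      refine (LinearMap.continuous_on_pi a).comp ?_
      exact (hg.comp continuous_fst).clm_apply continuous_const
    · exact (((continuous_apply _).comp (continuous_subtype_val.comp continuous_snd)).sub continuous_const).abs
  have h1 := hb.tendsto (y₀, ν₀)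
  have h0 : Bn (a.comp (g y₀ : (Fin n → K) →ₗ[K] (Fin n → K)) - a.comp (g y₀ : (Fin n → K) →ₗ[K] (Fin n → K))) +
      |ν₀.1 (a.comp (g y₀ : (Fin n → K) →ₗ[K] (Fin n → K))) -
        ν₀.1 (a.comp (g y₀ : (Fin n → K) →ₗ[K] (Fin n → K)))| = 0 := by
    rw [sub_self, sub_self, abs_zero, add_zero]
    unfold Bn
    simp
  simp only [h0] at h1
  refine squeeze_zero (fun _ => dist_nonneg) (fun p => ?_) h1
  rw [Real.dist_eq]
  have h2 := abs_sub_le (p.2.1 (a.comp (g p.1 : (Fin n → K) →ₗ[K] (Fin n → K))))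
    (p.2.1 (a.comp (g y₀ : (Fin n → K) →ₗ[K] (Fin n → K)))) (ν₀.1 (a.comp (g y₀ : (Fin n → K) →ₗ[K] (Fin n → K))))
  refine h2.trans (add_le_add (lines_lip p.2.2 _ _) le_rfl)

variable [CompactSpace Y] [T2Space Y]

/-- **The system of limits of lines.** -/
theorem line_system (S : Y → Y) (hS : Continuous S) (g : Y → (Fin n → K) →L[K] (Fin n → K)) (hg : Continuous g)
    (hinj : ∀ y, ∃ c : ℝ, 0 < c ∧ ∀ v, c * ‖v‖ ≤ ‖g y v‖) :
    ∃ (X : Type) (_ : TopologicalSpace X) (_ : CompactSpace X) (_ : T2Space X) (T : X → X) (π : X → Y)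
      (N : X → ((Fin n → K) →ₗ[K] K) → ℝ) (q : Y → ∀ v : Fin n → K, v ≠ 0 → X) (ρ : X → ℝ), Continuous T ∧
      Continuous π ∧ (∀ x, π (T x) = S (π x)) ∧ LineAction T π N ∧ (∀ a, Continuous fun x => N x a) ∧
      (∀ x x', π x = π x' → N x = N x' → x = x') ∧
      (∀ y v hv, π (q y v hv) = y ∧ N (q y v hv) = fun a => ‖a v‖ / ‖v‖) ∧
      (∀ y v (hv : v ≠ 0) (hv' : g y v ≠ 0), T (q y v hv) = q (S y) (g y v) hv') ∧ Continuous ρ ∧ (∀ x, 0 < ρ x) ∧
      ∀ y v hv, ρ (q y v hv) = ‖g y v‖ / ‖v‖ := by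
  have _ : CompactSpace (closure (Lines K n)) := isCompact_iff_compactSpace.1 lines_compact
  choose c hc hcg using hinj
  have hmem : ∀ x : Y × closure (Lines K n),
      (fun a : (Fin n → K) →ₗ[K] K => x.2.1 (a.comp (g x.1 : (Fin n → K) →ₗ[K] (Fin n → K))) / stretch (g x.1 : (Fin n → K) →ₗ[K] (Fin n → K)) x.2.1) ∈
        closure (Lines K n) := fun x => act_mem (hc x.1) (hcg x.1) x.2.2
  have hρc : Continuous fun x : Y × closure (Lines K n) => stretch (g x.1 : (Fin n → K) →ₗ[K] (Fin n → K)) x.2.1 := by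
    unfold stretch
    exact (continuous_pi fun j => joint_cont hg _).norm
  have hρ0 : ∀ x : Y × closure (Lines K n), 0 < stretch (g x.1 : (Fin n → K) →ₗ[K] (Fin n → K)) x.2.1 :=
    fun x => lt_of_lt_of_le (hc x.1) (stretch_ge (hcg x.1) x.2.2)
  refine ⟨Y × closure (Lines K n), inferInstance, inferInstance, inferInstance,
    fun x => (S x.1, ⟨fun a : (Fin n → K) →ₗ[K] K => x.2.1 (a.comp (g x.1 : (Fin n → K) →ₗ[K] (Fin n → K))) /
      stretch (g x.1 : (Fin n → K) →ₗ[K] (Fin n → K)) x.2.1, hmem x⟩), Prod.fst, fun x => x.2.1,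
    fun y v hv => (y, ⟨fun a => ‖a v‖ / ‖v‖, subset_closure ⟨v, hv, rfl⟩⟩),
    fun x => stretch (g x.1 : (Fin n → K) →ₗ[K] (Fin n → K)) x.2.1, ?_, continuous_fst, fun _ => rfl, ⟨fun x => x.2.2, ?_⟩,
    fun a => (continuous_apply a).comp (continuous_subtype_val.comp continuous_snd), ?_, fun y v hv => ⟨rfl, rfl⟩, ?_,
    hρc, hρ0, fun y v hv => stretch_line _ _⟩
  · refine (hS.comp continuous_fst).prodMk (Continuous.subtype_mk (continuous_pi fun a => ?_) _)
    exact (joint_cont hg a).div hρc fun x => (hρ0 x).ne'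
  · intro y
    refine ⟨(g y : (Fin n → K) →ₗ[K] (Fin n → K)), ?_⟩
    rintro x rfl
    refine ⟨(stretch (g x.1 : (Fin n → K) →ₗ[K] (Fin n → K)) x.2.1)⁻¹, inv_pos.2 (hρ0 x), fun a => ?_⟩
    simp only
    rw [div_eq_inv_mul]
  · rintro ⟨y, ν⟩ ⟨y', ν'⟩ h1 h2
    exact Prod.ext h1 (Subtype.ext h2)
  · intro y v hv hv'
    have hv0 : 0 < ‖v‖ := norm_pos_iff.2 hv
    refine Prod.ext rfl (Subtype.ext (funext fun a => ?_))
    simp only [stretch_line, LinearMap.comp_apply]
    exact div_div_div_cancel_right₀ hv0.ne' _ _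

end

end Pool.Agent.Zk39.MC
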