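import Pool.Agent.Zk39.MC.Def

/-!
# Measures on the fibres
-/

set_option autoImplicit false
set_option linter.unusedSectionVars false

open Finset Filter Topology MeasureTheory

namespace Pool.Agent.Zk39.MC

/-- a measurable choice of one of finitely many sets -/
theorem exists_sel {X : Type} [MeasurableSpace X] {K : ℕ} (C : Fin K → Set X) (hC : ∀ k, MeasurableSet (C k)) (k₀ : Fin K)
    (s : Finset (Fin K)) : ∃ kk : X → Fin K, Measurable kk ∧ ∀ x, ∀ k ∈ s, x ∈ C k → x ∈ C (kk x) := by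
  classical
  induction s using Finset.induction_on with
  | empty => exact ⟨fun _ => k₀, measurable_const, fun x k hk => absurd hk (notMem_empty k)⟩
  | insert a s ha ih =>
    obtain ⟨kk, h1, h2⟩ := ih
    refine ⟨fun x => if x ∈ C a then a else kk x, Measurable.ite (hC a) measurable_const h1, fun x k hk hx => ?_⟩
    show x ∈ C (if x ∈ C a then a else kk x)
    by_cases hxa : x ∈ C a
    · rw [if_pos hxa]
      exact hxa
    · rw [if_neg hxa]
      rcases mem_insert.1 hk with rfl | hk'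
      · exact absurd hx hxa
      · exact h2 x k hk' hx

theorem map_iter {W X : Type} [TopologicalSpace X] [MeasurableSpace X] [BorelSpace X] {T : X → X} (hT : Continuous T)
    {T' : W → W} {μ : W → Measure X} (hmap : ∀ w, μ (T' w) = (μ w).map T) (m : ℕ) (w : W) :
    μ (T'^[m] w) = (μ w).map (T^[m]) := by
  induction m with
  | zero => simp
  | succ m ih =>
    rw [Function.iterate_succ_apply', hmap, ih, Measure.map_map hT.measurable (hT.iterate m).measurable,
      Function.iterate_succ']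

/-- **Measures on the fibres.** -/
theorem bdd_measures {W X Y : Type} [TopologicalSpace X] [MeasurableSpace X] [BorelSpace X] [TopologicalSpace Y]
    {S : Y → Y} {P : Set Y} {T : X → X} {π : X → Y} (hT : Continuous T) {T' : W → W} {ρ : W → Y} (μ : W → Measure X)
    (hprob : ∀ w, IsProbabilityMeasure (μ w)) (hsupp : ∀ w, ∀ᵐ x ∂(μ w), π x = ρ w)
    (hmap : ∀ w, μ (T' w) = (μ w).map T) {F : X → ℂ} (hF : Continuous F) (hb : ∃ C, ∀ x, ‖F x‖ ≤ C)
    (h : Bdd S P T π F) : Bdd S P T' ρ (fun w => ∫ x, F x ∂(μ w)) := by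
  classical
  obtain ⟨C₀, hC₀⟩ := hb
  set C := max C₀ 0 with hCdef
  have hC : ∀ x, ‖F x‖ ≤ C := fun x => (hC₀ x).trans (le_max_left _ _)
  have hC0 : 0 ≤ C := le_max_right _ _
  intro δ hδ
  obtain ⟨K, G, hG, ⟨N₀, hN₀⟩, hκ⟩ := h (δ / 3) (by positivity)
  obtain ⟨L₀, hL₀⟩ := exists_nat_ge (3 * K * C / δ)
  set L : ℕ := L₀ + 1 with hL
  have hLpos : (0 : ℝ) < L := by rw [hL]; positivity
  have hKCL : K * (1 / (L : ℝ)) * C ≤ δ / 3 := by
    rw [div_le_iff₀ hδ] at hL₀
    have h1 : (L₀ : ℝ) ≤ L := by rw [hL]; push_cast; linarith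
    have h2 : (K : ℝ) * (1 / (L : ℝ)) * C = K * C / L := by ring
    rw [h2, div_le_iff₀ hLpos]
    nlinarith
  refine ⟨Fintype.card (Fin K → Fin (L + 1)), G, hG, ⟨N₀, fun N hN y hy => ?_⟩, fun H y hy => ?_⟩
  · obtain ⟨V, hV1, hV2⟩ := hN₀ N hN y hy
    refine ⟨V, hV1, hV2.trans ?_⟩
    exact mul_le_mul_of_nonneg_right (by linarith) (Nat.cast_nonneg _)
  rcases isEmpty_or_nonempty W with hW | hW
  · exact ⟨fun w => (hW.false w).elim, fun w => (hW.false w).elim⟩
  obtain ⟨κ, hκ⟩ := hκ H y hy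
  have hX : Nonempty X := by
    by_contra hcon
    rw [not_nonempty_iff] at hcon
    obtain ⟨w⟩ := hW
    have h1 := (hprob w).measure_univ
    rw [Set.univ_eq_empty_iff.2 hcon, measure_empty] at h1
    exact zero_ne_one h1
  have hrep : ∀ k : Fin K, ∃ a : X, (∃ x, π x = y ∧ κ x = k) → π a = y ∧ κ a = k := by
    intro k
    by_cases hk : ∃ x, π x = y ∧ κ x = k
    · obtain ⟨x, hx⟩ := hk
      exact ⟨x, fun _ => hx⟩
    · exact ⟨Classical.arbitrary X, fun h => absurd h hk⟩
  choose a ha using hrep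
  set Ck : Fin K → Set X := fun k => {x | ∑ m ∈ range H, ‖F (T^[m] x) - F (T^[m] (a k))‖ ≤ δ / 3 * H} with hCk
  have hCkm : ∀ k, MeasurableSet (Ck k) := by
    intro k
    refine (isClosed_le ?_ continuous_const).measurableSet
    exact continuous_finsetSum _ fun m _ => ((hF.comp (hT.iterate m)).sub continuous_const).norm
  obtain ⟨kk, hkkm, hkk⟩ := exists_sel Ck hCkm (κ (Classical.arbitrary X)) univ
  have hkk2 : ∀ x, π x = y → x ∈ Ck (kk x) := by
    intro x hx
    refine hkk x (κ x) (mem_univ _) ?_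
    obtain ⟨h1, h2⟩ := ha (κ x) ⟨x, hx, rfl⟩
    exact hκ x (a (κ x)) hx h1 h2.symm
  -- the masses of the cells
  set p : W → Fin K → ℝ := fun w k => (μ w).real (kk ⁻¹' {k}) with hp
  have hp1 : ∀ w k, 0 ≤ p w k ∧ p w k ≤ 1 := by
    intro w k
    have _ := hprob w
    exact ⟨measureReal_nonneg, measureReal_le_one⟩
  have happ : ∀ w, ρ w = y → ∑ m ∈ range H, ‖∫ x, F x ∂(μ (T'^[m] w)) - ∑ k, (p w k : ℂ) * F (T^[m] (a k))‖ ≤
      δ / 3 * H := by
    intro w hw
    have _ := hprob w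
    have hFm : ∀ m, Integrable (fun x => F (T^[m] x)) (μ w) := by
      intro m
      refine Integrable.of_bound (hF.comp (hT.iterate m)).aestronglyMeasurable C ?_
      exact Eventually.of_forall fun x => hC _
    have hFa : ∀ m, Integrable (fun x => F (T^[m] (a (kk x)))) (μ w) := by
      intro m
      refine Integrable.of_bound ?_ C ?_
      · exact ((measurable_of_countable fun k => F (T^[m] (a k))).comp hkkm).aestronglyMeasurable
      · exact Eventually.of_forall fun x => hC _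
    have e1 : ∀ m, ∫ x, F x ∂(μ (T'^[m] w)) = ∫ x, F (T^[m] x) ∂(μ w) := by
      intro m
      rw [map_iter hT hmap, integral_map (hT.iterate m).measurable.aemeasurable hF.aestronglyMeasurable]
    have e2 : ∀ m, ∑ k, (p w k : ℂ) * F (T^[m] (a k)) = ∫ x, F (T^[m] (a (kk x))) ∂(μ w) := by
      intro m
      have h1 : ∫ x, F (T^[m] (a (kk x))) ∂(μ w) = ∫ k, F (T^[m] (a k)) ∂((μ w).map kk) := by
        rw [integral_map hkkm.aemeasurable (measurable_of_countable _).aestronglyMeasurable]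
      have _ : IsProbabilityMeasure ((μ w).map kk) := Measure.isProbabilityMeasure_map hkkm.aemeasurable
      rw [h1, integral_fintype (Integrable.of_finite)]
      refine sum_congr rfl fun k _ => ?_
      rw [hp]
      simp only
      rw [map_measureReal_apply hkkm (measurableSet_singleton k), Complex.real_smul]
    have h2 : ∀ m, ‖∫ x, F x ∂(μ (T'^[m] w)) - ∑ k, (p w k : ℂ) * F (T^[m] (a k))‖ ≤
        ∫ x, ‖F (T^[m] x) - F (T^[m] (a (kk x)))‖ ∂(μ w) := by
      intro m
      rw [e1, e2, ← integral_sub (hFm m) (hFa m)]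
      exact norm_integral_le_integral_norm _
    refine (sum_le_sum fun m _ => h2 m).trans ?_
    have hint : ∀ m, Integrable (fun x => ‖F (T^[m] x) - F (T^[m] (a (kk x)))‖) (μ w) :=
      fun m => ((hFm m).sub (hFa m)).norm
    rw [← integral_finsetSum _ fun m _ => hint m]
    have h3 : ∀ᵐ x ∂(μ w), ∑ m ∈ range H, ‖F (T^[m] x) - F (T^[m] (a (kk x)))‖ ≤ δ / 3 * H := by
      filter_upwards [hsupp w] with x hx
      exact hkk2 x (hx.trans hw)
    have h4 := integral_mono_ae (integrable_finsetSum _ fun m _ => hint m)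
      (integrable_const (δ / 3 * H : ℝ)) h3
    refine h4.trans (le_of_eq ?_)
    rw [integral_const, probReal_univ, one_smul]
  -- the cells
  set n : W → Fin K → Fin (L + 1) := fun w k => ⟨⌊(L : ℝ) * p w k⌋₊, by
    rw [Nat.lt_succ_iff]
    refine Nat.floor_le_of_le ?_
    have := (hp1 w k).2
    nlinarith⟩ with hn
  refine ⟨fun w => Fintype.equivFin _ (n w), fun w w' hw hw' hww => ?_⟩
  have hnn : n w = n w' := (Fintype.equivFin _).injective hww
  have hpp : ∀ k, |p w k - p w' k| ≤ 1 / L := by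
    intro k
    have h1 : ⌊(L : ℝ) * p w k⌋₊ = ⌊(L : ℝ) * p w' k⌋₊ := by
      have := congrFun hnn k
      simp only [hn, Fin.mk.injEq] at this
      exact this
    have a1 := Nat.floor_le (mul_nonneg hLpos.le (hp1 w k).1)
    have a2 := Nat.lt_floor_add_one ((L : ℝ) * p w k)
    have a3 := Nat.floor_le (mul_nonneg hLpos.le (hp1 w' k).1)
    have a4 := Nat.lt_floor_add_one ((L : ℝ) * p w' k)
    rw [h1] at a1 a2
    rw [le_div_iff₀ hLpos]
    have h2 : |p w k - p w' k| * L = |L * p w k - L * p w' k| := by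
      rw [← mul_sub, abs_mul, abs_of_pos hLpos, mul_comm]
    rw [h2, abs_le]
    constructor <;> linarith
  have hJ : ∀ m, ‖∑ k, (p w k : ℂ) * F (T^[m] (a k)) - ∑ k, (p w' k : ℂ) * F (T^[m] (a k))‖ ≤ δ / 3 := by
    intro m
    rw [← sum_sub_distrib]
    refine (norm_sum_le _ _).trans ?_
    have h1 : ∀ k ∈ (univ : Finset (Fin K)), ‖(p w k : ℂ) * F (T^[m] (a k)) - (p w' k : ℂ) * F (T^[m] (a k))‖ ≤
        1 / L * C := by
      intro k _
      rw [← sub_mul, norm_mul, ← Complex.ofReal_sub, Complex.norm_real, Real.norm_eq_abs]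
      exact mul_le_mul (hpp k) (hC _) (norm_nonneg _) (by positivity)
    refine (sum_le_sum h1).trans ?_
    rw [sum_const, card_univ, Fintype.card_fin, nsmul_eq_mul, ← mul_assoc]
    exact hKCL
  have h1 := happ w hw
  have h2 := happ w' hw'
  have h3 : ∀ m, ‖∫ x, F x ∂(μ (T'^[m] w)) - ∫ x, F x ∂(μ (T'^[m] w'))‖ ≤
      ‖∫ x, F x ∂(μ (T'^[m] w)) - ∑ k, (p w k : ℂ) * F (T^[m] (a k))‖ + δ / 3 +
        ‖∫ x, F x ∂(μ (T'^[m] w')) - ∑ k, (p w' k : ℂ) * F (T^[m] (a k))‖ := by
    intro m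
    have e1 : ∫ x, F x ∂(μ (T'^[m] w)) - ∫ x, F x ∂(μ (T'^[m] w')) =
        (∫ x, F x ∂(μ (T'^[m] w)) - ∑ k, (p w k : ℂ) * F (T^[m] (a k))) +
        (∑ k, (p w k : ℂ) * F (T^[m] (a k)) - ∑ k, (p w' k : ℂ) * F (T^[m] (a k))) -
        (∫ x, F x ∂(μ (T'^[m] w')) - ∑ k, (p w' k : ℂ) * F (T^[m] (a k))) := by ring
    rw [e1]
    refine (norm_sub_le _ _).trans (add_le_add ((norm_add_le _ _).trans (add_le_add le_rfl (hJ m))) le_rfl)
  have h4 : ∑ m ∈ range H, ‖∫ x, F x ∂(μ (T'^[m] w)) - ∫ x, F x ∂(μ (T'^[m] w'))‖ ≤ δ * H := by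
    refine (sum_le_sum fun m _ => h3 m).trans ?_
    rw [sum_add_distrib, sum_add_distrib, sum_const, card_range, nsmul_eq_mul]
    linarith
  exact h4

end Pool.Agent.Zk39.MC
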