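import Pool.Agent.Zk39.MC.Def
import Pool.Agent.R296.VC.Null

/-!
# Null functions have bounded mean complexity on the fibres
-/

set_option autoImplicit false

open Finset Filter Topology

namespace Pool.Agent.Zk39.MC

open Pool.Agent.R296.VC

/-- separated points in a fibre -/
theorem sep_count {X Y : Type} [TopologicalSpace Y] {S : Y → Y} {P : Set Y} {T : X → X} {π : X → Y} {g : X → ℝ} {C : ℝ}
    (hb : ∀ x, |g x| ≤ C) (h : ∀ s t : ℝ, s < t → NullPair S P T π {x | g x ≤ s} {x | t ≤ g x}) {ε δ : ℝ} (hε : 0 < ε)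
    (hδ : 0 < δ) : ∃ (k D : ℕ) (G : Set Y), IsClosed G ∧ Mostly S P G δ ∧ ∀ y ∈ G, ∀ (s : ℕ) (u : Fin s → ℕ)
      (B : Finset X), (∀ a ∈ B, π a = y) →
        (∀ a ∈ B, ∀ b ∈ B, a ≠ b → ∃ i, 2 * ε < |g (T^[u i] a) - g (T^[u i] b)|) → B.card ≤ qp (s * k) D := by
  classical
  obtain ⟨L, hL⟩ := exists_nat_ge (2 * C / ε)
  rw [div_le_iff₀ hε] at hL
  set θ : ℕ → ℝ := fun j => -C + j * ε with hθ
  set k : ℕ := L + 1 with hk
  have hn : ∀ j : Fin k, ∃ (d : ℕ) (G : Set Y), IsClosed G ∧ Mostly S P G (δ / (k + 1)) ∧ ∀ y ∈ G, ∀ m : Fin d → ℕ,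
      ∃ τ : Fin d → Bool, ∀ x, π x = y → ∃ i, T^[m i] x ∉ (if τ i then {x | g x ≤ θ j} else {x | θ (j + 1) ≤ g x}) := by
    intro j
    refine h (θ j) (θ (j + 1)) ?_ _ (by positivity)
    simp only [hθ]
    push_cast
    nlinarith
  choose d G hG1 hG2 hd using hn
  set D : ℕ := ∑ q, d q with hD
  have hGm : Mostly S P (⋂ q, G q) δ := by
    have h1 : Pool.Agent.R296.VC.Mostly S P (⋂ q, G q) (Fintype.card (Fin k) * (δ / (k + 1))) := Mostly_iInter hG2
    refine Mostly_mono ?_ h1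
    rw [Fintype.card_fin, mul_div_assoc', div_le_iff₀ (by positivity)]
    nlinarith
  refine ⟨k, D, _, isClosed_iInter hG1, hGm, fun y hyG s u p hpy hsep => ?_⟩
  have hex : ∀ a ∈ p, ∀ b ∈ p, a ≠ b → ∃ e : Fin s × Fin k,
      (g (T^[u e.1] a) ≤ θ e.2 ∧ θ (e.2 + 1) ≤ g (T^[u e.1] b)) ∨
      (θ (e.2 + 1) ≤ g (T^[u e.1] a) ∧ g (T^[u e.1] b) ≤ θ e.2) := by
    intro a ha b hb' hab
    obtain ⟨i, hi⟩ := hsep a ha b hb' hab
    have key : ∀ x x' : X, g x + 2 * ε < g x' → ∃ j : Fin k, g x ≤ θ j ∧ θ (j + 1) ≤ g x' := by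
      intro x x' hxx
      have h1 := abs_le.1 (hb x)
      have h2 := abs_le.1 (hb x')
      have h3 : 0 ≤ (g x + C) / ε := div_nonneg (by linarith) hε.le
      have h4 := Nat.le_ceil ((g x + C) / ε)
      have h5 := Nat.ceil_lt_add_one h3
      rw [div_le_iff₀ hε] at h4
      have h6 : (⌈(g x + C) / ε⌉₊ : ℝ) * ε < g x + C + ε := by
        have h7 := mul_lt_mul_of_pos_right h5 hε
        rw [add_mul, div_mul_cancel₀ _ hε.ne', one_mul] at h7
        exact h7
      have h8 : ⌈(g x + C) / ε⌉₊ < k := by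
        have h9 : (⌈(g x + C) / ε⌉₊ : ℝ) * ε < (L + 1) * ε := by nlinarith
        have h10 := lt_of_mul_lt_mul_right h9 hε.le
        have h11 : ((⌈(g x + C) / ε⌉₊ : ℕ) : ℝ) < ((L + 1 : ℕ) : ℝ) := by push_cast; exact h10
        exact_mod_cast h11
      refine ⟨⟨_, h8⟩, ?_, ?_⟩
      · simp only [hθ]
        linarith
      · simp only [hθ]
        push_cast
        linarith
    rcases lt_abs.1 hi with h1 | h1
    · obtain ⟨j, hj1, hj2⟩ := key (T^[u i] b) (T^[u i] a) (by linarith)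
      exact ⟨(i, j), Or.inr ⟨hj2, hj1⟩⟩
    · obtain ⟨j, hj1, hj2⟩ := key (T^[u i] a) (T^[u i] b) (by linarith)
      exact ⟨(i, j), Or.inl ⟨hj1, hj2⟩⟩
  by_cases hone : p.card ≤ 1
  · refine hone.trans ?_
    unfold qp
    exact Nat.one_le_pow _ _ (Nat.succ_pos _)
  · push Not at hone
    obtain ⟨a, ha, b, hb', hab⟩ := one_lt_card.1 hone
    obtain ⟨e, _⟩ := hex a ha b hb' hab
    have _ : Nonempty (Fin s × Fin k) := ⟨e⟩
    have h1 := card_of_sep (α := X) (E := Fin s × Fin k) (P := fun x e => g (T^[u e.1] x) ≤ θ e.2)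
      (Q := fun x e => θ (e.2 + 1) ≤ g (T^[u e.1] x)) (fun z e hz => by
        obtain ⟨h1, h2⟩ := hz
        simp only [hθ] at h1 h2
        push_cast at h2
        nlinarith) D p hex ?_
    · have h2 : Fintype.card (Fin s × Fin k) = s * k := by
        rw [Fintype.card_prod, Fintype.card_fin, Fintype.card_fin]
      rw [h2] at h1
      exact h1
    · intro R hR
      by_contra hcon
      push Not at hcon
      -- some pair has many times
      have h2 : ∃ q : Fin k, d q < (R.filter fun e => e.2 = q).card := by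
        by_contra h
        push Not at h
        have h3 : R.card = ∑ q : Fin k, (R.filter fun e => e.2 = q).card :=
          card_eq_sum_card_fiberwise fun e _ => mem_coe.2 (mem_univ _)
        have h4 : R.card ≤ D := by
          rw [h3]
          exact sum_le_sum fun q _ => h q
        omega
      obtain ⟨q, hq⟩ := h2
      obtain ⟨R', hR', hRc⟩ := exists_subset_card_eq hq.le
      set en := R'.equivFinOfCardEq hRc with hen
      obtain ⟨τ, hτ⟩ := hd q y (Set.mem_iInter.1 hyG q) fun i => u (en.symm i).1.1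
      obtain ⟨z, hz, h5, h6⟩ := hR ((R'.attach.filter fun e => τ (en e) = true).map (Function.Embedding.subtype _)) (by
        intro e he
        obtain ⟨e', _, rfl⟩ := Finset.mem_map.1 he
        exact filter_subset _ _ (hR' e'.2))
      obtain ⟨i, hi⟩ := hτ z (hpy z hz)
      have hmem : (en.symm i).1 ∈ R := filter_subset _ _ (hR' (en.symm i).2)
      have heq : (en.symm i).1.2 = q := (mem_filter.1 (hR' (en.symm i).2)).2
      by_cases hti : τ i = true
      · rw [if_pos hti] at hi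
        refine hi ?_
        have h7 : g (T^[u (en.symm i).1.1] z) ≤ θ ((en.symm i).1.2 : Fin k) := h5 (en.symm i).1 (Finset.mem_map.2
          ⟨en.symm i, mem_filter.2 ⟨mem_attach _ _, by
          rw [Equiv.apply_symm_apply]
          exact hti⟩, rfl⟩)
        rw [heq] at h7
        exact h7
      · rw [if_neg hti] at hi
        refine hi ?_
        have h7 : θ (((en.symm i).1.2 : Fin k) + 1) ≤ g (T^[u (en.symm i).1.1] z) := h6 (en.symm i).1 hmem (fun h8 => hti (by
          obtain ⟨e', he', he''⟩ := Finset.mem_map.1 h8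
          have h9 : e' = en.symm i := Subtype.ext he''
          rw [h9] at he'
          have h10 := (mem_filter.1 he').2
          rwa [Equiv.apply_symm_apply] at h10))
        rw [heq] at h7
        exact h7

/-- **Null functions have bounded mean complexity.** -/
theorem bdd_of_null {X Y : Type} [TopologicalSpace Y] {S : Y → Y} {P : Set Y} {T : X → X} {π : X → Y} {g : X → ℝ}
    (hb : ∃ C, ∀ x, |g x| ≤ C) (h : ∀ s t : ℝ, s < t → NullPair S P T π {x | g x ≤ s} {x | t ≤ g x}) :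
    Bdd S P T π (fun x => (g x : ℂ)) := by
  classical
  obtain ⟨C₀, hC₀⟩ := hb
  set C := max C₀ 0 with hCdef
  have hC : ∀ x, |g x| ≤ C := fun x => (hC₀ x).trans (le_max_left _ _)
  have hC0 : 0 ≤ C := le_max_right _ _
  intro δ hδ
  obtain ⟨k, D, G, hG, hM, hcount⟩ := sep_count hC h (ε := δ / 8) (δ := δ) (by positivity) hδ
  set η : ℝ := min 1 (δ / (8 * (C + 1))) with hη
  have hη0 : 0 < η := lt_min one_pos (by positivity)
  obtain ⟨s, hs⟩ := slow_qp k D η hη0 (min_le_left _ _)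
  set M := qp (s * k) D with hMdef
  refine ⟨M + 1, G, hG, hM, fun H y hyG => ?_⟩
  rcases Nat.eq_zero_or_pos H with rfl | hH
  · exact ⟨fun _ => 0, fun x x' _ _ _ => by simp⟩
  have _ : Nonempty (Fin H) := ⟨⟨0, hH⟩⟩
  obtain ⟨A, hA, hA2⟩ := sample2 (ι := {x // π x = y}) (U := Fin H)
    (fun x x' v => 2 * (δ / 8) < |g (T^[v] x.1) - g (T^[v] x'.1)|) (fun a v => by
      rw [sub_self, abs_zero, not_lt]
      positivity) (fun a b v hv => by rwa [abs_sub_comm]) s M hη0
    (min_le_left _ _) hs (by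
      intro u B hB1
      have h1 := hcount y hyG s (fun i => (u i : ℕ)) (B.map (Function.Embedding.subtype _)) (by
        intro a ha
        obtain ⟨b, _, rfl⟩ := Finset.mem_map.1 ha
        exact b.2) (by
        intro a ha b hb hab
        obtain ⟨a', ha', rfl⟩ := Finset.mem_map.1 ha
        obtain ⟨b', hb', rfl⟩ := Finset.mem_map.1 hb
        exact hB1 a' ha' b' hb' fun h => hab (congrArg _ h))
      rwa [card_map] at h1)
  choose c hcA V hV1 hV2 using hA2
  have hdist : ∀ x : {x // π x = y}, ∑ m ∈ range H, |g (T^[m] x.1) - g (T^[m] (c x).1)| ≤ δ / 2 * H := by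
    intro x
    rw [← Fin.sum_univ_eq_sum_range (fun m => |g (T^[m] x.1) - g (T^[m] (c x).1)|) H]
    have h6 : ∀ m : Fin H, |g (T^[m] x.1) - g (T^[m] (c x).1)| ≤ δ / 4 + if m ∈ V x then 2 * C else 0 := by
      intro m
      by_cases hmb : m ∈ V x
      · rw [if_pos hmb]
        have h7 := abs_sub (g (T^[m] x.1)) (g (T^[m] (c x).1))
        have h8 := hC (T^[m] x.1)
        have h9 := hC (T^[m] (c x).1)
        linarith
      · rw [if_neg hmb, add_zero]
        by_contra hcon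
        exact hmb (hV1 x m (by
          have := not_le.1 hcon
          linarith))
    have h7 : ∑ m : Fin H, (if m ∈ V x then 2 * C else 0) = (V x).card * (2 * C) := by
      rw [sum_ite_mem, univ_inter, sum_const, nsmul_eq_mul]
    have h8 : η * (2 * C) ≤ δ / 4 := by
      have h9 : η ≤ δ / (8 * (C + 1)) := min_le_right _ _
      have h10 : η * (2 * C) ≤ δ / (8 * (C + 1)) * (2 * C) := by gcongr
      refine h10.trans ?_
      have h11 : δ / (8 * (C + 1)) * (2 * C) = δ / 4 * (C / (C + 1)) := by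
        field_simp
        ring
      rw [h11]
      have h12 : C / (C + 1) ≤ 1 := by
        rw [div_le_one (by positivity)]
        linarith
      nlinarith
    have h9 := hV2 x
    rw [Fintype.card_fin] at h9
    calc ∑ m : Fin H, |g (T^[m] x.1) - g (T^[m] (c x).1)|
        ≤ ∑ m : Fin H, (δ / 4 + if m ∈ V x then 2 * C else 0) := sum_le_sum fun m _ => h6 m
      _ = H * (δ / 4) + (V x).card * (2 * C) := by
          rw [sum_add_distrib, h7, sum_const, card_univ, Fintype.card_fin, nsmul_eq_mul]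
      _ ≤ H * (δ / 4) + η * H * (2 * C) := by gcongr
      _ = H * (δ / 4) + H * (η * (2 * C)) := by ring
      _ ≤ H * (δ / 4) + H * (δ / 4) := by gcongr
      _ = δ / 2 * H := by ring
  refine ⟨fun x => if hx : π x = y then ⟨(A.equivFin ⟨c ⟨x, hx⟩, hcA ⟨x, hx⟩⟩ : ℕ),
    Nat.lt_succ_of_lt (lt_of_lt_of_le (Fin.is_lt _) hA)⟩ else 0, fun x x' hx hx' hxx => ?_⟩
  simp only [dif_pos hx, dif_pos hx', Fin.mk.injEq] at hxx
  have hcc : c ⟨x, hx⟩ = c ⟨x', hx'⟩ := by
    have h1 := A.equivFin.injective (Fin.ext hxx)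
    exact congrArg Subtype.val h1
  have h1 := hdist ⟨x, hx⟩
  have h2 := hdist ⟨x', hx'⟩
  rw [hcc] at h1
  have h3 : ∀ m, ‖((g (T^[m] x) : ℝ) : ℂ) - ((g (T^[m] x') : ℝ) : ℂ)‖ ≤
      |g (T^[m] x) - g (T^[m] (c ⟨x', hx'⟩).1)| + |g (T^[m] x') - g (T^[m] (c ⟨x', hx'⟩).1)| := by
    intro m
    rw [← Complex.ofReal_sub, Complex.norm_real, Real.norm_eq_abs]
    have h4 : g (T^[m] x) - g (T^[m] x') = (g (T^[m] x) - g (T^[m] (c ⟨x', hx'⟩).1)) -
      (g (T^[m] x') - g (T^[m] (c ⟨x', hx'⟩).1)) := by ring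
    rw [h4]
    exact abs_sub _ _
  have h5 : ∑ m ∈ range H, ‖((g (T^[m] x) : ℝ) : ℂ) - ((g (T^[m] x') : ℝ) : ℂ)‖ ≤ δ * H := by
    refine (sum_le_sum fun m _ => h3 m).trans ?_
    rw [sum_add_distrib]
    linarith
  exact h5

end Pool.Agent.Zk39.MC
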