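import Pool.Agent.Zk39.MC.Def
import Pool.Agent.Zk39.LC.Null

/-!
# Linear cocycles over the real numbers: null functions
-/

set_option autoImplicit false
set_option linter.unusedSectionVars false

open Finset

namespace Pool.Agent.Zk39.MC

open Pool.Agent.Zk39.LC (Eu un norm_un un_pos exists_net pattern_card)

variable {X Y : Type} {n : ℕ} {S : Y → Y} {T : X → X} {π : X → Y} {Φ : X → Eu n}

theorem semi_iter' (h : ∀ x, π (T x) = S (π x)) (m : ℕ) (x : X) : π (T^[m] x) = S^[m] (π x) := by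
  induction m with
  | zero => rfl
  | succ m ih => rw [Function.iterate_succ_apply', Function.iterate_succ_apply', h, ih]

theorem ray_iter (h : ∀ x, π (T x) = S (π x)) (hlin : ∀ y, ∃ g : Eu n →ₗ[ℝ] Eu n, ∀ x, π x = y →
    ∃ c : ℝ, 0 < c ∧ Φ (T x) = c • g (Φ x)) (m : ℕ) (y : Y) :
    ∃ g : Eu n →ₗ[ℝ] Eu n, ∀ x, π x = y → ∃ c : ℝ, 0 < c ∧ Φ (T^[m] x) = c • g (Φ x) := by
  induction m with
  | zero => exact ⟨LinearMap.id, fun x _ => ⟨1, one_pos, by simp⟩⟩
  | succ m ih =>
    obtain ⟨g, hg⟩ := ih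
    obtain ⟨g', hg'⟩ := hlin (S^[m] y)
    refine ⟨g'.comp g, fun x hx => ?_⟩
    obtain ⟨c, hc, h1⟩ := hg x hx
    obtain ⟨c', hc', h2⟩ := hg' (T^[m] x) (by rw [semi_iter' h, hx])
    refine ⟨c' * c, mul_pos hc' hc, ?_⟩
    rw [Function.iterate_succ_apply', h2, h1, map_smul, LinearMap.comp_apply, smul_smul]

/-- **Nullness over the real numbers.** -/
theorem null_real [TopologicalSpace Y] {P : Set Y} (h : ∀ x, π (T x) = S (π x)) (h0 : ∀ x, Φ x ≠ 0)
    (hlin : ∀ y, ∃ g : Eu n →ₗ[ℝ] Eu n, ∀ x, π x = y → ∃ c : ℝ, 0 < c ∧ Φ (T x) = c • g (Φ x))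
    (w : Eu n) (s t : ℝ) (hst : s < t) :
    NullPair S P T π {x | inner ℝ w (un (Φ x)) ≤ s} {x | t ≤ inner ℝ w (un (Φ x))} := by
  classical
  intro δ hδ
  set ε : ℝ := (t - s) / (‖w‖ + 1) with hε'
  have hw0 := norm_nonneg w
  have hε : 0 < ε := div_pos (by linarith) (by linarith)
  obtain ⟨W, hW⟩ := exists_net n hε
  set q : ℕ := Module.finrank ℝ (Eu n) with hq
  obtain ⟨k, hk⟩ := Pool.Agent.Zk39.LC.exists_large q W.card
  refine ⟨k, Set.univ, isClosed_univ, ⟨0, fun N _ y _ => ⟨∅, fun n _ h => absurd (Set.mem_univ _) h, by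
    rw [card_empty, Nat.cast_zero]; positivity⟩⟩, fun y _ m => ?_⟩
  by_contra hcon
  push Not at hcon
  choose x hxy hx using hcon
  choose g hg using fun i => ray_iter h hlin (m i) y
  -- the sign patterns
  set L : {x // π x = y} → Fin k × {w // w ∈ W} → Prop := fun ω p => 0 < inner ℝ p.2.1 (Φ (T^[m p.1] ω.1)) with hLdef
  set Z : (Fin k → Bool) → Finset (Fin k × {w // w ∈ W}) := fun τ => univ.filter fun p => L ⟨x τ, hxy τ⟩ p with hZ
  have key : ∀ (σ σ' : Fin k → Bool) (i : Fin k), Z σ = Z σ' → inner ℝ w (un (Φ (T^[m i] (x σ)))) ≤ s →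
      t ≤ inner ℝ w (un (Φ (T^[m i] (x σ')))) → False := by
    intro σ σ' i hZZ ha hb
    have hdist : ε ≤ ‖un (Φ (T^[m i] (x σ))) - un (Φ (T^[m i] (x σ')))‖ := by
      have h1 : t - s ≤ inner ℝ w (un (Φ (T^[m i] (x σ'))) - un (Φ (T^[m i] (x σ)))) := by
        rw [inner_sub_right]
        linarith
      have h2 := h1.trans (real_inner_le_norm _ _)
      rw [norm_sub_rev] at h2
      rw [hε', div_le_iff₀ (by linarith)]
      nlinarith [norm_nonneg (un (Φ (T^[m i] (x σ))) - un (Φ (T^[m i] (x σ'))))]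
    obtain ⟨v, hv, hv1, hv2⟩ := hW _ _ (norm_un (h0 _)) (norm_un (h0 _)) hdist
    rw [un_pos (h0 _)] at hv1 hv2
    have h3 : ((i, ⟨v, hv⟩) : Fin k × {w // w ∈ W}) ∈ Z σ := mem_filter.2 ⟨mem_univ _, hv1⟩
    rw [hZZ] at h3
    exact hv2 (mem_filter.1 h3).2
  have hZinj : Function.Injective Z := by
    intro τ τ' hττ
    funext i
    have h1 := hx τ i
    have h2 := hx τ' i
    cases hτ : τ i
    · cases hτ' : τ' i
      · rfl
      · rw [hτ] at h1
        rw [hτ'] at h2
        simp only [Bool.false_eq_true, if_false, if_true] at h1 h2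
        exact absurd (key τ' τ i hττ.symm h2 h1) id
    · cases hτ' : τ' i
      · rw [hτ] at h1
        rw [hτ'] at h2
        simp only [Bool.false_eq_true, if_false, if_true] at h1 h2
        exact absurd (key τ τ' i hττ h1 h2) id
      · rfl
  have hcard : (univ.image Z).card = 2 ^ k := by
    rw [card_image_of_injective _ hZinj, card_univ, Fintype.card_fun, Fintype.card_bool, Fintype.card_fin]
  have hbound := pattern_card (V := Eu n) L
    (fun p => (innerₛₗ ℝ p.2.1).comp (g p.1)) (fun ω => Φ ω.1) (fun ω p => by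
      obtain ⟨c, hc', h1⟩ := hg p.1 ω.1 ω.2
      rw [hLdef]
      simp only [LinearMap.comp_apply, innerₛₗ_apply_apply]
      rw [h1, real_inner_smul_right]
      constructor
      · intro h2
        exact (pos_iff_pos_of_mul_pos h2).1 hc'
      · exact fun h2 => mul_pos hc' h2) (univ.image Z) (fun u hu => by
      obtain ⟨τ, -, rfl⟩ := mem_image.1 hu
      refine ⟨⟨x τ, hxy τ⟩, fun p => ?_⟩
      rw [hZ]
      simp only [mem_filter, mem_univ, true_and])
  rw [hcard, ← hq] at hbound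
  have hIcard : Fintype.card (Fin k × {w // w ∈ W}) = k * W.card := by
    rw [Fintype.card_prod, Fintype.card_fin, Fintype.card_coe]
  rw [hIcard] at hbound
  omega

end Pool.Agent.Zk39.MC
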