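import Mathlib

/-!
# Extensions which are compact in the mean: definitions
-/

set_option autoImplicit false

open Finset Filter Topology

namespace Pool.Agent.Zk39.MC

/-- the orbits of the points of `P` are in `G` but for a proportion `δ` of the times -/
def Mostly {Y : Type} (S : Y → Y) (P G : Set Y) (δ : ℝ) : Prop :=
  ∃ N₀ : ℕ, ∀ N ≥ N₀, ∀ y ∈ P, ∃ V : Finset ℕ, (∀ n < N, S^[n] y ∉ G → n ∈ V) ∧ (V.card : ℝ) ≤ δ * N

/-- The fibres have bounded mean complexity for the function `F`: for each `δ > 0` there are a number `K` and a closed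
set `G` of base points, in which the orbits of `P` spend at least the proportion `1 - δ` of their time, such that for
all lengths `H` the fibre over each point of `G` is the union of `K` sets of diameter at most `δ` for the mean distance
`(1/H) ∑_{m < H} |F(T^m x) - F(T^m x')|`. -/
def Bdd {X Y : Type} [TopologicalSpace Y] (S : Y → Y) (P : Set Y) (T : X → X) (π : X → Y) (F : X → ℂ) : Prop :=
  ∀ δ : ℝ, 0 < δ → ∃ (K : ℕ) (G : Set Y), IsClosed G ∧ Mostly S P G δ ∧ ∀ H : ℕ, ∀ y ∈ G, ∃ κ : X → Fin K,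
    ∀ x x', π x = y → π x' = y → κ x = κ x' → ∑ m ∈ range H, ‖F (T^[m] x) - F (T^[m] x')‖ ≤ δ * H

/-- for most points of the base, `A` and `B` are independent along the fibre for a bounded number of times only -/
def NullPair {X Y : Type} [TopologicalSpace Y] (S : Y → Y) (P : Set Y) (T : X → X) (π : X → Y) (A B : Set X) : Prop :=
  ∀ δ : ℝ, 0 < δ → ∃ (d : ℕ) (G : Set Y), IsClosed G ∧ Mostly S P G δ ∧ ∀ y ∈ G, ∀ m : Fin d → ℕ,
    ∃ τ : Fin d → Bool, ∀ x, π x = y → ∃ i, T^[m i] x ∉ (if τ i then A else B)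

/-- At two times `m`, `m'` the map does not separate, along one fibre, two distant pairs of close points: if the images
of `x₁, x₂` under `T^m` are at distance at least `ε` from those of `x₃, x₄`, and the images under `T^m'` of `x₁` and
`x₂`, and of `x₃` and `x₄`, are at distance at least `ε`, then those of `x₁` and `x₂` under `T^m` are at distance at
least `c(ε)`. -/
def FourPoint {X Y : Type} (T : X → X) (π : X → Y) (D : X → X → ℝ) : Prop :=
  ∀ ε : ℝ, 0 < ε → ∃ c : ℝ, 0 < c ∧ ∀ (m m' : ℕ) (x₁ x₂ x₃ x₄ : X), π x₁ = π x₂ → π x₁ = π x₃ → π x₁ = π x₄ →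
    ε ≤ D (T^[m] x₁) (T^[m] x₃) → ε ≤ D (T^[m] x₁) (T^[m] x₄) → ε ≤ D (T^[m] x₂) (T^[m] x₃) →
    ε ≤ D (T^[m] x₂) (T^[m] x₄) → ε ≤ D (T^[m'] x₁) (T^[m'] x₂) → ε ≤ D (T^[m'] x₃) (T^[m'] x₄) →
    c ≤ D (T^[m] x₁) (T^[m] x₂)

/-- a continuous pseudometric -/
def PseudoMetric {X : Type} [TopologicalSpace X] (D : X → X → ℝ) : Prop :=
  Continuous (fun q : X × X => D q.1 q.2) ∧ (∀ x, D x x = 0) ∧ (∀ x y, D x y = D y x) ∧ ∀ x y z, D x z ≤ D x y + D y z

/-- The convergence property of Gehring and Martin: each sequence in `𝒢` has a subsequence which converges uniformly to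
a continuous map, or which converges to a constant, locally uniformly on the complement of a point. -/
def Convergence {Z : Type} [MetricSpace Z] (𝒢 : Set (Z → Z)) : Prop :=
  ∀ h : ℕ → Z → Z, (∀ n, h n ∈ 𝒢) → ∃ φ : ℕ → ℕ, StrictMono φ ∧
    ((∃ k : Z → Z, Continuous k ∧ TendstoUniformly (fun n => h (φ n)) k atTop) ∨
      ∃ a b : Z, TendstoLocallyUniformlyOn (fun n => h (φ n)) (fun _ => a) atTop {b}ᶜ)

/-- A family of lines in `K^n` (or of limits of lines) on which `T` acts linearly on each fibre. The line of a vector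
`v ≠ 0` is represented by the function `a ↦ |a(v)| / |v|` of the linear functionals `a` on `K^n`, with the maximum norm
`|v|`; `N_x` is such a function, or a limit of such functions (a point of the Berkovich or Bruhat-Tits
compactifications), and for each `y` there is one linear map `g` such that `N_(T x)(a) = c N_x(a ∘ g)` for some `c > 0`
which does not depend on `a`, for all `x` over `y`. -/
def LineAction {X Y K : Type} [NormedField K] {n : ℕ} (T : X → X) (π : X → Y)
    (N : X → ((Fin n → K) →ₗ[K] K) → ℝ) : Prop :=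
  (∀ x, N x ∈ closure {ν | ∃ v : Fin n → K, v ≠ 0 ∧ ν = fun a => ‖a v‖ / ‖v‖}) ∧
  ∀ y, ∃ g : (Fin n → K) →ₗ[K] (Fin n → K), ∀ x, π x = y → ∃ c : ℝ, 0 < c ∧ ∀ a, N (T x) a = c * N x (a.comp g)

end Pool.Agent.Zk39.MC
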