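import Pool.Agent.Zk39.MC.Ultra

/-!
# The number of patterns of comparisons of absolute values, and nullness
-/

set_option autoImplicit false
set_option linter.unusedSectionVars false

open Finset

namespace Pool.Agent.Zk39.MC

/-- the number of subsets with at most `n` elements -/
theorem card_small (I : Type) [Fintype I] [DecidableEq I] (n : ℕ) :
    ((univ : Finset (Finset I)).filter fun J => J.card ≤ n).card ≤ (Fintype.card I + 1) ^ n := by
  classical
  have h1 : ((univ : Finset (Finset I)).filter fun J => J.card ≤ n) ⊆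
      (univ : Finset (Fin n → Option I)).image fun g => univ.filter fun i => ∃ k, g k = some i := by
    intro J hJ
    have hJn := (mem_filter.1 hJ).2
    rw [mem_image]
    refine ⟨fun k => if h : (k : ℕ) < J.card then some (J.equivFin.symm ⟨k, h⟩).1 else none, mem_univ _, ?_⟩
    ext i
    simp only [mem_filter, mem_univ, true_and]
    constructor
    · rintro ⟨k, hk⟩
      split_ifs at hk with h
      · rw [← Option.some_inj.1 hk]
        exact (J.equivFin.symm ⟨k, h⟩).2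
    · intro hi
      refine ⟨⟨(J.equivFin ⟨i, hi⟩ : ℕ), lt_of_lt_of_le (J.equivFin ⟨i, hi⟩).2 hJn⟩, ?_⟩
      rw [dif_pos (J.equivFin ⟨i, hi⟩).2]
      simp
  refine (card_le_card h1).trans (card_image_le.trans ?_)
  rw [card_univ, Fintype.card_fun, Fintype.card_option, Fintype.card_fin]

section

variable {K I Q Ω : Type} [NormedField K] [IsUltrametricDist K] [Fintype I] [DecidableEq I] [Fintype Q] [DecidableEq Q]
  {n : ℕ}

open Classical in
/-- the sign patterns -/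
theorem sign_card (J : Finset I) (hJn : J.card ≤ n) (C : I → I → ℝ) (p q : Q → I) (t : ℝ) (x : Ω → I → ℝ)
    (hx : ∀ ω, ∀ l ∈ J, 0 < x ω l) (hC : ∀ i l, 0 ≤ C i l) (ht : 0 < t)
    (𝒜 : Finset (Finset (Q × I × I))) (h𝒜 : ∀ u ∈ 𝒜, ∃ ω, u = univ.filter fun r : Q × I × I => r.2.1 ∈ J ∧ r.2.2 ∈ J ∧
      C (p r.1) r.2.1 ≠ 0 ∧ C (q r.1) r.2.2 ≠ 0 ∧ C (p r.1) r.2.1 * x ω r.2.1 < t * (C (q r.1) r.2.2 * x ω r.2.2)) :
    𝒜.card ≤ (n + 2) * (Fintype.card Q * (Fintype.card I * Fintype.card I) + 1) ^ (n + 1) := by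
  classical
  have hfin : Module.finrank ℝ (({l // l ∈ J} → ℝ) × ℝ) = J.card + 1 := by
    rw [Module.finrank_prod, Module.finrank_fintype_fun_eq_card, Fintype.card_coe, Module.finrank_self]
  set f : Q × I × I → ((({l // l ∈ J} → ℝ) × ℝ) →ₗ[ℝ] ℝ) := fun r => if h : (r.2.1 ∈ J ∧ r.2.2 ∈ J) ∧
      C (p r.1) r.2.1 ≠ 0 ∧ C (q r.1) r.2.2 ≠ 0 then
      (LinearMap.proj (⟨r.2.2, h.1.2⟩ : {l // l ∈ J})).comp (LinearMap.fst ℝ ({l // l ∈ J} → ℝ) ℝ) -
      (LinearMap.proj (⟨r.2.1, h.1.1⟩ : {l // l ∈ J})).comp (LinearMap.fst ℝ ({l // l ∈ J} → ℝ) ℝ) +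
      (Real.log t + Real.log (C (q r.1) r.2.2) - Real.log (C (p r.1) r.2.1)) • LinearMap.snd ℝ ({l // l ∈ J} → ℝ) ℝ
    else 0 with hf
  have h1 := Pool.Agent.Zk39.LC.pattern_card (V := (({l // l ∈ J} → ℝ) × ℝ)) (I := Q × I × I) (Ω := Ω)
    (fun ω r => r.2.1 ∈ J ∧ r.2.2 ∈ J ∧
      C (p r.1) r.2.1 ≠ 0 ∧ C (q r.1) r.2.2 ≠ 0 ∧ C (p r.1) r.2.1 * x ω r.2.1 < t * (C (q r.1) r.2.2 * x ω r.2.2)) f
    (fun ω => (fun l => Real.log (x ω l.1), 1)) (by
      intro ω r
      by_cases h : (r.2.1 ∈ J ∧ r.2.2 ∈ J) ∧ C (p r.1) r.2.1 ≠ 0 ∧ C (q r.1) r.2.2 ≠ 0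
      · have e1 : f r (fun l => Real.log (x ω l.1), 1) = Real.log (x ω r.2.2) - Real.log (x ω r.2.1) +
            (Real.log t + Real.log (C (q r.1) r.2.2) - Real.log (C (p r.1) r.2.1)) := by
          rw [hf]
          simp only
          rw [dif_pos h, LinearMap.add_apply, LinearMap.sub_apply, LinearMap.smul_apply, LinearMap.comp_apply,
            LinearMap.comp_apply, LinearMap.proj_apply, LinearMap.proj_apply, LinearMap.fst_apply, LinearMap.snd_apply,
            smul_eq_mul, mul_one]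
        rw [e1]
        have c1 : 0 < C (p r.1) r.2.1 := lt_of_le_of_ne (hC _ _) (Ne.symm h.2.1)
        have c2 : 0 < C (q r.1) r.2.2 := lt_of_le_of_ne (hC _ _) (Ne.symm h.2.2)
        have x1 := hx ω _ h.1.1
        have x2 := hx ω _ h.1.2
        have e2 : Real.log (x ω r.2.2) - Real.log (x ω r.2.1) +
            (Real.log t + Real.log (C (q r.1) r.2.2) - Real.log (C (p r.1) r.2.1)) =
            Real.log (t * (C (q r.1) r.2.2 * x ω r.2.2)) - Real.log (C (p r.1) r.2.1 * x ω r.2.1) := by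
          rw [Real.log_mul ht.ne' (mul_pos c2 x2).ne', Real.log_mul c2.ne' x2.ne', Real.log_mul c1.ne' x1.ne']
          ring
        rw [e2, sub_pos, Real.log_lt_log_iff (mul_pos c1 x1) (mul_pos ht (mul_pos c2 x2))]
        constructor
        · exact fun h => h.2.2.2.2
        · exact fun h' => ⟨h.1.1, h.1.2, h.2.1, h.2.2, h'⟩
      · have e1 : f r = 0 := by
          rw [hf]
          simp only
          rw [dif_neg h]
        rw [e1, LinearMap.zero_apply]
        constructor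
        · exact fun h' => absurd ⟨⟨h'.1, h'.2.1⟩, h'.2.2.1, h'.2.2.2.1⟩ h
        · exact fun h' => absurd h' (lt_irrefl _)) 𝒜 (by
      intro u hu
      obtain ⟨ω, hω⟩ := h𝒜 u hu
      refine ⟨ω, fun r => ?_⟩
      rw [hω, mem_filter]
      simp only [mem_univ, true_and])
  rw [hfin, Fintype.card_prod, Fintype.card_prod] at h1
  refine h1.trans ?_
  refine Nat.mul_le_mul (by omega) (Nat.pow_le_pow_right (Nat.succ_pos _) (by omega))

open Classical in
/-- **The number of patterns of comparisons.** -/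
theorem ultra_card (f : I → ((Fin n → K) →ₗ[K] K)) (v : Ω → Fin n → K) (p q : Q → I) {t : ℝ} (ht : 0 < t)
    (𝒜 : Finset (Finset Q)) (h𝒜 : ∀ u ∈ 𝒜, ∃ ω, u = univ.filter fun r => ‖f (p r) (v ω)‖ < t * ‖f (q r) (v ω)‖) :
    𝒜.card ≤ (n + 2) * (Fintype.card Q * (Fintype.card I * Fintype.card I) + 1) ^ (n + 1) *
      ((Fintype.card I + 1) ^ n * (Fintype.card I + 1) ^ n) := by
  classical
  rcases 𝒜.eq_empty_or_nonempty with h | ⟨u₁, hu₁⟩
  · rw [h, card_empty]
    exact Nat.zero_le _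
  have _ : Nonempty Ω := ⟨(h𝒜 u₁ hu₁).choose⟩
  choose! ω hω using h𝒜
  choose J₀ J hJ₀ hJ h0 hne hst using fun ω => ultra_structure f (v ω)
  set Sg : Ω → Finset (Q × I × I) := fun o => univ.filter fun r : Q × I × I => r.2.1 ∈ J o ∧ r.2.2 ∈ J o ∧
      ‖cf f (J o) (p r.1) r.2.1‖ ≠ 0 ∧ ‖cf f (J o) (q r.1) r.2.2‖ ≠ 0 ∧
        ‖cf f (J o) (p r.1) r.2.1‖ * ‖f r.2.1 (v o)‖ < t * (‖cf f (J o) (q r.1) r.2.2‖ * ‖f r.2.2 (v o)‖) with hSg
  -- the data determine the pattern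
  have hdet : ∀ o o' : Ω, J₀ o = J₀ o' → J o = J o' → Sg o = Sg o' → ∀ r : Q, ‖f (p r) (v o)‖ < t * ‖f (q r) (v o)‖ →
      ‖f (p r) (v o')‖ < t * ‖f (q r) (v o')‖ := by
    intro o o' e0 e1 e2 r hr
    have hz : ∀ i, f i (v o) = 0 ↔ f i (v o') = 0 := by
      intro i
      rw [h0 o i, h0 o' i, e0]
    have hq : f (q r) (v o) ≠ 0 := by
      intro h
      rw [h, norm_zero, mul_zero] at hr
      exact absurd hr (not_lt.2 (norm_nonneg _))
    have hq' : f (q r) (v o') ≠ 0 := fun h => hq ((hz _).2 h)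
    by_cases hp : f (p r) (v o) = 0
    · rw [(hz _).1 hp, norm_zero]
      exact mul_pos ht (norm_pos_iff.2 hq')
    · have hp' : f (p r) (v o') ≠ 0 := fun h => hp ((hz _).2 h)
      obtain ⟨l, hl, hl2⟩ := (hst o' (p r) hp').2
      obtain ⟨l', hl', hl2'⟩ := (hst o (q r) hq).2
      have hl3 : ‖cf f (J o') (p r) l‖ ≠ 0 := by
        intro h
        rw [h, zero_mul] at hl2
        exact hp' (norm_le_zero_iff.1 hl2)
      have hl3' : ‖cf f (J o) (q r) l'‖ ≠ 0 := by
        intro h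
        rw [h, zero_mul] at hl2'
        exact hq (norm_le_zero_iff.1 hl2')
      have hmem : (r, l, l') ∈ Sg o := by
        rw [hSg, mem_filter]
        refine ⟨mem_univ _, by rw [e1]; exact hl, hl', by rw [e1]; exact hl3, hl3', ?_⟩
        have h4 := (hst o (p r) hp).1 l (by rw [e1]; exact hl)
        exact lt_of_le_of_lt h4 (lt_of_lt_of_le hr (mul_le_mul_of_nonneg_left hl2' ht.le))
      rw [e2, hSg, mem_filter] at hmem
      obtain ⟨-, -, hl4, -, -, hlt⟩ := hmem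
      refine lt_of_le_of_lt hl2 (lt_of_lt_of_le hlt ?_)
      exact mul_le_mul_of_nonneg_left ((hst o' (q r) hq').1 l' hl4) ht.le
  -- counting
  have hfib : ∀ a ∈ 𝒜.image fun u => (J₀ (ω u), J (ω u)), (𝒜.filter fun u => (J₀ (ω u), J (ω u)) = a).card ≤
      (n + 2) * (Fintype.card Q * (Fintype.card I * Fintype.card I) + 1) ^ (n + 1) := by
    rintro ⟨j₀, j⟩ ha
    obtain ⟨u₀, hu₀, he⟩ := mem_image.1 ha
    rw [Prod.mk.injEq] at he
    have hinj : Set.InjOn (fun u => Sg (ω u)) (𝒜.filter fun u => (J₀ (ω u), J (ω u)) = (j₀, j) : Finset (Finset Q)) := by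
      intro u hu u' hu' huu
      rw [mem_coe, mem_filter, Prod.mk.injEq] at hu hu'
      rw [hω u hu.1, hω u' hu'.1]
      ext r
      simp only [mem_filter, mem_univ, true_and]
      exact ⟨hdet _ _ (hu.2.1.trans hu'.2.1.symm) (hu.2.2.trans hu'.2.2.symm) huu r,
        hdet _ _ (hu'.2.1.trans hu.2.1.symm) (hu'.2.2.trans hu.2.2.symm) huu.symm r⟩
    rw [← card_image_of_injOn hinj]
    have hjn : j.card ≤ n := by
      rw [← he.2]
      exact hJ _
    refine sign_card (Ω := {o : Ω // J o = j}) (n := n) j hjn (fun i l => ‖cf f j i l‖) p q t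
      (fun o l => ‖f l (v o.1)‖) (fun o l hl => norm_pos_iff.2 (hne o.1 l (by rw [o.2]; exact hl)))
      (fun i l => norm_nonneg _) ht _ ?_
    intro u hu
    obtain ⟨u', hu', rfl⟩ := mem_image.1 hu
    rw [mem_filter, Prod.mk.injEq] at hu'
    refine ⟨⟨ω u', hu'.2.2⟩, ?_⟩
    rw [hSg]
    simp only
    rw [hu'.2.2]
  refine (card_le_mul_card_image 𝒜 _ hfib).trans (Nat.mul_le_mul_left _ ?_)
  have h2 : 𝒜.image (fun u => (J₀ (ω u), J (ω u))) ⊆
      ((univ : Finset (Finset I)).filter fun J => J.card ≤ n) ×ˢ ((univ : Finset (Finset I)).filter fun J => J.card ≤ n) := by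
    intro a ha
    obtain ⟨u, -, rfl⟩ := mem_image.1 ha
    exact mem_product.2 ⟨mem_filter.2 ⟨mem_univ _, hJ₀ _⟩, mem_filter.2 ⟨mem_univ _, hJ _⟩⟩
  refine (card_le_card h2).trans ?_
  rw [card_product]
  exact Nat.mul_le_mul (card_small I n) (card_small I n)

end

end Pool.Agent.Zk39.MC
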