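import Pool.Agent.Zk39.MC.UCount

/-!
# Linear cocycles over nonarchimedean fields are null relative to the base
-/

set_option autoImplicit false
set_option linter.unusedSectionVars false

open Finset Filter Topology

namespace Pool.Agent.Zk39.MC

theorem mostly_univ {Y : Type} {S : Y → Y} {P : Set Y} {δ : ℝ} (hδ : 0 ≤ δ) : Mostly S P Set.univ δ :=
  ⟨0, fun N _ y _ => ⟨∅, fun n _ h => absurd (Set.mem_univ _) h, by rw [card_empty, Nat.cast_zero]; positivity⟩⟩

/-- polynomials are smaller than exponentials -/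
theorem exists_large (C D : ℕ) : ∃ k : ℕ, C * (k + 1) ^ D < 2 ^ k := by
  have h1 : Filter.Tendsto (fun k : ℕ => ((k : ℝ) ^ (D + 1)) / (2 : ℝ) ^ k) Filter.atTop (nhds 0) :=
    tendsto_pow_const_div_const_pow_of_one_lt (D + 1) (by norm_num)
  have h2 := h1.eventually (gt_mem_nhds (show (0 : ℝ) < 1 / (C * 2 ^ D + 1) by positivity))
  obtain ⟨k, hk1, hk2⟩ := (h2.and (Filter.eventually_ge_atTop 1)).exists
  refine ⟨k, ?_⟩
  have h3 : (k : ℝ) ^ (D + 1) * (C * 2 ^ D + 1) < 2 ^ k := by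
    rw [div_lt_div_iff₀ (by positivity) (by positivity)] at hk1
    linarith
  have h4 : k ^ (D + 1) * (C * 2 ^ D + 1) < 2 ^ k := by exact_mod_cast h3
  refine lt_of_le_of_lt ?_ h4
  calc C * (k + 1) ^ D ≤ C * (2 * k) ^ D := Nat.mul_le_mul_left _ (Nat.pow_le_pow_left (by omega) _)
    _ = k ^ D * (C * 2 ^ D) := by rw [mul_pow]; ring
    _ ≤ k ^ (D + 1) * (C * 2 ^ D + 1) := Nat.mul_le_mul (Nat.pow_le_pow_right (by omega) (by omega)) (Nat.le_succ _)

theorem exists_large2 (n : ℕ) : ∃ k : ℕ, (n + 2) * (k * n * (k * (n + 1) * (k * (n + 1))) + 1) ^ (n + 1) *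
    ((k * (n + 1) + 1) ^ n * (k * (n + 1) + 1) ^ n) < 2 ^ k := by
  obtain ⟨k, hk⟩ := exists_large ((n + 2) * (n + 1) ^ (3 * (n + 1) + 2 * n)) (3 * (n + 1) + 2 * n)
  refine ⟨k, lt_of_le_of_lt ?_ hk⟩
  have h1 : k * (n + 1) + 1 ≤ (n + 1) * (k + 1) := by nlinarith
  have h2 : k * n * (k * (n + 1) * (k * (n + 1))) + 1 ≤ ((n + 1) * (k + 1)) ^ 3 := by
    have e1 : k * n * (k * (n + 1) * (k * (n + 1))) ≤ (k * (n + 1)) * (k * (n + 1) * (k * (n + 1))) :=
      Nat.mul_le_mul_right _ (Nat.mul_le_mul_left _ (Nat.le_succ _))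
    have e2 : (k * (n + 1)) * (k * (n + 1) * (k * (n + 1))) + 1 ≤ (k * (n + 1) + 1) ^ 3 := by
      nlinarith [Nat.zero_le (k * (n + 1)), Nat.zero_le (k * (n + 1) * (k * (n + 1)))]
    exact (Nat.add_le_add_right e1 1).trans (e2.trans (Nat.pow_le_pow_left h1 3))
  calc (n + 2) * (k * n * (k * (n + 1) * (k * (n + 1))) + 1) ^ (n + 1) *
        ((k * (n + 1) + 1) ^ n * (k * (n + 1) + 1) ^ n)
      ≤ (n + 2) * (((n + 1) * (k + 1)) ^ 3) ^ (n + 1) * (((n + 1) * (k + 1)) ^ n * ((n + 1) * (k + 1)) ^ n) := by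
        refine Nat.mul_le_mul (Nat.mul_le_mul_left _ (Nat.pow_le_pow_left h2 _)) ?_
        exact Nat.mul_le_mul (Nat.pow_le_pow_left h1 _) (Nat.pow_le_pow_left h1 _)
    _ = (n + 2) * ((n + 1) * (k + 1)) ^ (3 * (n + 1) + 2 * n) := by
        rw [← pow_mul, mul_assoc, ← pow_add, ← pow_add]
        congr 2
        ring
    _ = (n + 2) * (n + 1) ^ (3 * (n + 1) + 2 * n) * (k + 1) ^ (3 * (n + 1) + 2 * n) := by
        rw [mul_pow]
        ring

section

variable {X Y K : Type} [NormedField K] {n : ℕ} {S : Y → Y} {T : X → X} {π : X → Y}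
  {N : X → ((Fin n → K) →ₗ[K] K) → ℝ}

theorem semi_iter (h : ∀ x, π (T x) = S (π x)) (m : ℕ) (x : X) : π (T^[m] x) = S^[m] (π x) := by
  induction m with
  | zero => rfl
  | succ m ih => rw [Function.iterate_succ_apply', Function.iterate_succ_apply', h, ih]

theorem line_iter (h : ∀ x, π (T x) = S (π x)) (hN : LineAction T π N) (m : ℕ) (y : Y) :
    ∃ g : (Fin n → K) →ₗ[K] (Fin n → K), ∀ x, π x = y → ∃ c : ℝ, 0 < c ∧ ∀ a, N (T^[m] x) a = c * N x (a.comp g) := by
  induction m with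
  | zero =>
    refine ⟨LinearMap.id, fun x _ => ⟨1, one_pos, fun a => ?_⟩⟩
    rw [LinearMap.comp_id, one_mul]
    rfl
  | succ m ih =>
    obtain ⟨g, hg⟩ := ih
    obtain ⟨g', hg'⟩ := hN.2 (S^[m] y)
    refine ⟨g'.comp g, fun x hx => ?_⟩
    obtain ⟨c, hc, h1⟩ := hg x hx
    obtain ⟨c', hc', h2⟩ := hg' (T^[m] x) (by rw [semi_iter h, hx])
    refine ⟨c' * c, mul_pos hc' hc, fun a => ?_⟩
    rw [Function.iterate_succ_apply', h2, h1, mul_assoc, LinearMap.comp_assoc]

/-- the closed conditions satisfied by limits of lines -/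
theorem line_props {ν : ((Fin n → K) →ₗ[K] K) → ℝ}
    (hν : ν ∈ closure {ν | ∃ v : Fin n → K, v ≠ 0 ∧ ν = fun a => ‖a v‖ / ‖v‖}) :
    (∀ a, 0 ≤ ν a) ∧ (∀ j : Fin n, ν (LinearMap.proj j) ≤ 1) ∧ ∃ j : Fin n, 1 ≤ ν (LinearMap.proj j) := by
  have key : closure {ν | ∃ v : Fin n → K, v ≠ 0 ∧ ν = fun a => ‖a v‖ / ‖v‖} ⊆
      {ν : ((Fin n → K) →ₗ[K] K) → ℝ | (∀ a, 0 ≤ ν a) ∧ (∀ j : Fin n, ν (LinearMap.proj j) ≤ 1) ∧
        ∃ j : Fin n, 1 ≤ ν (LinearMap.proj j)} := by
    refine closure_minimal ?_ ?_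
    · rintro _ ⟨v, hv, rfl⟩
      have hv0 : 0 < ‖v‖ := norm_pos_iff.2 hv
      refine ⟨fun a => by positivity, fun j => ?_, ?_⟩
      · show ‖v j‖ / ‖v‖ ≤ 1
        rw [div_le_one hv0]
        exact norm_le_pi_norm v j
      · by_contra hcon
        push Not at hcon
        have h1 : ‖v‖ < ‖v‖ := by
          rw [pi_norm_lt_iff hv0]
          intro j
          have h2 : ‖v j‖ / ‖v‖ < 1 := hcon j
          rw [div_lt_one hv0] at h2
          exact h2
        exact lt_irrefl _ h1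
    · have e1 : {ν : ((Fin n → K) →ₗ[K] K) → ℝ | (∀ a, 0 ≤ ν a) ∧ (∀ j : Fin n, ν (LinearMap.proj j) ≤ 1) ∧
          ∃ j : Fin n, 1 ≤ ν (LinearMap.proj j)} = (⋂ a, {ν | 0 ≤ ν a}) ∩ ((⋂ j : Fin n, {ν | ν (LinearMap.proj j) ≤ 1}) ∩
            ⋃ j : Fin n, {ν | 1 ≤ ν (LinearMap.proj j)}) := by
        ext ν
        simp
      rw [e1]
      refine (isClosed_iInter fun a => isClosed_le continuous_const (continuous_apply a)).inter
        ((isClosed_iInter fun j => isClosed_le (continuous_apply _) continuous_const).inter ?_)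
      exact isClosed_iUnion_of_finite fun j => isClosed_le continuous_const (continuous_apply _)
  exact key hν

/-- **Nullness over nonarchimedean fields.** -/
theorem null_ultra [IsUltrametricDist K] [TopologicalSpace Y] {P : Set Y} (h : ∀ x, π (T x) = S (π x))
    (hN : LineAction T π N) (a : (Fin n → K) →ₗ[K] K) (s t : ℝ) (hst : s < t) :
    NullPair S P T π {x | N x a ≤ s} {x | t ≤ N x a} := by
  classical
  intro δ hδ
  rcases lt_or_ge s 0 with hs | hs
  · refine ⟨1, Set.univ, isClosed_univ, mostly_univ hδ.le, fun y _ m => ⟨fun _ => true, fun x _ => ⟨0, ?_⟩⟩⟩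
    rw [if_pos rfl]
    intro h1
    have h2 : N (T^[m 0] x) a ≤ s := h1
    have h3 := (line_props (hN.1 (T^[m 0] x))).1 a
    linarith
  set t' : ℝ := (s + t) / 2 with ht'
  have ht0 : 0 < t' := by linarith
  obtain ⟨k, hk⟩ := exists_large2 n
  refine ⟨k, Set.univ, isClosed_univ, mostly_univ hδ.le, fun y _ m => ?_⟩
  by_contra hcon
  push Not at hcon
  choose x hxy hx using hcon
  choose g hg using fun i => line_iter h hN (m i) y
  -- approximation by lines
  have happ : ∀ τ : Fin k → Bool, ∃ v : Fin n → K, v ≠ 0 ∧ ∀ i,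
      (τ i = true → ∃ j, ‖a (g i v)‖ < t' * ‖(g i v) j‖) ∧ (τ i = false → ∀ j, ¬ ‖a (g i v)‖ < t' * ‖(g i v) j‖) := by
    intro τ
    set U : Set (((Fin n → K) →ₗ[K] K) → ℝ) := ⋂ i, {ν |
      (τ i = true → ∃ j : Fin n, ν (a.comp (g i)) < t' * ν ((LinearMap.proj j).comp (g i))) ∧
      (τ i = false → ∀ j : Fin n, t' * ν ((LinearMap.proj j).comp (g i)) < ν (a.comp (g i)))} with hU
    have hUo : IsOpen U := by
      refine isOpen_iInter_of_finite fun i => ?_
      cases τ i
      · have e1 : {ν : ((Fin n → K) →ₗ[K] K) → ℝ |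
            (false = true → ∃ j : Fin n, ν (a.comp (g i)) < t' * ν ((LinearMap.proj j).comp (g i))) ∧
            (false = false → ∀ j : Fin n, t' * ν ((LinearMap.proj j).comp (g i)) < ν (a.comp (g i)))} =
            ⋂ j : Fin n, {ν | t' * ν ((LinearMap.proj j).comp (g i)) < ν (a.comp (g i))} := by
          ext ν
          simp
        rw [e1]
        exact isOpen_iInter_of_finite fun j =>
          isOpen_lt (continuous_const.mul (continuous_apply _)) (continuous_apply _)
      · have e1 : {ν : ((Fin n → K) →ₗ[K] K) → ℝ |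
            (true = true → ∃ j : Fin n, ν (a.comp (g i)) < t' * ν ((LinearMap.proj j).comp (g i))) ∧
            (true = false → ∀ j : Fin n, t' * ν ((LinearMap.proj j).comp (g i)) < ν (a.comp (g i)))} =
            ⋃ j : Fin n, {ν | ν (a.comp (g i)) < t' * ν ((LinearMap.proj j).comp (g i))} := by
          ext ν
          simp
        rw [e1]
        exact isOpen_iUnion fun j =>
          isOpen_lt (continuous_apply _) (continuous_const.mul (continuous_apply _))
    have hmem : N (x τ) ∈ U := by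
      rw [hU, Set.mem_iInter]
      intro i
      obtain ⟨c, hc, h3⟩ := hg i (x τ) (hxy τ)
      obtain ⟨-, h4, j₀, h5⟩ := line_props (hN.1 (T^[m i] (x τ)))
      have h1 := hx τ i
      refine ⟨fun hτ => ⟨j₀, ?_⟩, fun hτ j => ?_⟩
      · rw [hτ, if_pos rfl] at h1
        have h2 : N (T^[m i] (x τ)) a ≤ s := h1
        rw [h3] at h2 h5
        have h6 : c * N (x τ) (a.comp (g i)) < c * (t' * N (x τ) ((LinearMap.proj j₀).comp (g i))) := by
          have h7 : t' * 1 ≤ t' * (c * N (x τ) ((LinearMap.proj j₀).comp (g i))) := mul_le_mul_of_nonneg_left h5 ht0.le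
          have h8 : c * (t' * N (x τ) ((LinearMap.proj j₀).comp (g i))) =
            t' * (c * N (x τ) ((LinearMap.proj j₀).comp (g i))) := by ring
          rw [h8]
          linarith
        exact lt_of_mul_lt_mul_left h6 hc.le
      · rw [hτ] at h1
        simp only [Bool.false_eq_true, if_false] at h1
        have h2 : t ≤ N (T^[m i] (x τ)) a := h1
        have h5' := h4 j
        rw [h3] at h2 h5'
        have h6 : c * (t' * N (x τ) ((LinearMap.proj j).comp (g i))) < c * N (x τ) (a.comp (g i)) := by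
          have h7 : t' * (c * N (x τ) ((LinearMap.proj j).comp (g i))) ≤ t' * 1 :=
            mul_le_mul_of_nonneg_left h5' ht0.le
          have h8 : c * (t' * N (x τ) ((LinearMap.proj j).comp (g i))) =
            t' * (c * N (x τ) ((LinearMap.proj j).comp (g i))) := by ring
          rw [h8]
          linarith
        exact lt_of_mul_lt_mul_left h6 hc.le
    obtain ⟨ν, hνU, v, hv, rfl⟩ := mem_closure_iff.1 (hN.1 (x τ)) U hUo hmem
    have hv0 : 0 < ‖v‖ := norm_pos_iff.2 hv
    refine ⟨v, hv, fun i => ?_⟩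
    have h1 := Set.mem_iInter.1 hνU i
    obtain ⟨h2, h3⟩ := h1
    refine ⟨fun hτ => ?_, fun hτ j hj => ?_⟩
    · obtain ⟨j, hj⟩ := h2 hτ
      refine ⟨j, ?_⟩
      simp only [LinearMap.comp_apply, LinearMap.proj_apply] at hj
      rw [← mul_div_assoc, div_lt_div_iff_of_pos_right hv0] at hj
      exact hj
    · have h4 := h3 hτ j
      simp only [LinearMap.comp_apply, LinearMap.proj_apply] at h4
      rw [← mul_div_assoc, div_lt_div_iff_of_pos_right hv0] at h4
      linarith
  choose v hv0 hv using happ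
  set f : Fin k × Option (Fin n) → ((Fin n → K) →ₗ[K] K) := fun r =>
    match r.2 with
    | none => a.comp (g r.1)
    | some j => (LinearMap.proj j).comp (g r.1) with hf
  set Z : (Fin k → Bool) → Finset (Fin k × Fin n) := fun τ => univ.filter fun r : Fin k × Fin n =>
    ‖f (r.1, none) (v τ)‖ < t' * ‖f (r.1, some r.2) (v τ)‖ with hZ
  have hA : ∀ τ i, τ i = true → ∃ j, (i, j) ∈ Z τ := by
    intro τ i hτ
    obtain ⟨j, hj⟩ := (hv τ i).1 hτ
    exact ⟨j, mem_filter.2 ⟨mem_univ _, hj⟩⟩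
  have hB : ∀ τ i, τ i = false → ∀ j, (i, j) ∉ Z τ := by
    intro τ i hτ j hj
    exact (hv τ i).2 hτ j (mem_filter.1 hj).2
  have hZinj : Function.Injective Z := by
    intro τ τ' hττ
    funext i
    cases hτ : τ i
    · cases hτ' : τ' i
      · rfl
      · obtain ⟨j, hj⟩ := hA τ' i hτ'
        rw [← hττ] at hj
        exact absurd hj (hB τ i hτ j)
    · cases hτ' : τ' i
      · obtain ⟨j, hj⟩ := hA τ i hτ
        rw [hττ] at hj
        exact absurd hj (hB τ' i hτ' j)
      · rfl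
  have hcard : (univ.image Z).card = 2 ^ k := by
    rw [card_image_of_injective _ hZinj, card_univ, Fintype.card_fun, Fintype.card_bool, Fintype.card_fin]
  have hbound := ultra_card (K := K) (I := Fin k × Option (Fin n)) (Q := Fin k × Fin n) f
    (fun τ : Fin k → Bool => v τ) (fun r => (r.1, none)) (fun r => (r.1, some r.2)) ht0 (univ.image Z) (by
      intro u hu
      obtain ⟨τ, -, rfl⟩ := mem_image.1 hu
      refine ⟨τ, ?_⟩
      rw [hZ])
  rw [hcard, Fintype.card_prod, Fintype.card_prod, Fintype.card_option, Fintype.card_fin, Fintype.card_fin] at hbound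
  omega

end

end Pool.Agent.Zk39.MC
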