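import Pool.Agent.Zk39.MC.Def
import Pool.Agent.Zk39.LC.VC

/-!
# Linear functionals over nonarchimedean fields: the number of patterns of comparisons of absolute values
-/

set_option autoImplicit false
set_option linter.unusedSectionVars false

open Finset

namespace Pool.Agent.Zk39.MC

section

variable {K W I : Type} [NormedField K] [IsUltrametricDist K] [AddCommGroup W] [Module K W] [Fintype I] [DecidableEq I]

/-- a finite family is generated over the unit ball by a linearly independent subfamily -/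
theorem unit_basis (φ : I → W) (I₁ : Finset I) : ∃ J ⊆ I₁, (∀ c : I → K, ∑ l ∈ J, c l • φ l = 0 → ∀ l ∈ J, c l = 0) ∧
    ∀ i ∈ I₁, ∃ c : I → K, (∀ l, ‖c l‖ ≤ 1) ∧ φ i = ∑ l ∈ J, c l • φ l := by
  classical
  set 𝓕 : Finset (Finset I) := I₁.powerset.filter fun J => ∀ i ∈ I₁, ∃ c : I → K, (∀ l, ‖c l‖ ≤ 1) ∧ φ i = ∑ l ∈ J, c l • φ l
    with h𝓕
  have hne : 𝓕.Nonempty := by
    refine ⟨I₁, ?_⟩
    rw [h𝓕, mem_filter]
    refine ⟨mem_powerset_self _, fun i hi => ⟨Pi.single i 1, fun l => ?_, ?_⟩⟩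
    · by_cases h : l = i
      · rw [h, Pi.single_eq_same, norm_one]
      · rw [Pi.single_eq_of_ne h, norm_zero]
        exact zero_le_one
    · rw [sum_eq_single_of_mem i hi]
      · rw [Pi.single_eq_same, one_smul]
      · intro l _ hl
        rw [Pi.single_eq_of_ne hl, zero_smul]
  obtain ⟨J, hJ, hmin⟩ := exists_min_image 𝓕 card hne
  rw [h𝓕, mem_filter, mem_powerset] at hJ
  refine ⟨J, hJ.1, ?_, hJ.2⟩
  intro c hc
  by_contra hcon
  push Not at hcon
  obtain ⟨l₀, hl₀, hcl₀⟩ := hcon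
  obtain ⟨s, hs, hsmax⟩ := exists_max_image J (fun l => ‖c l‖) ⟨l₀, hl₀⟩
  have hcs : c s ≠ 0 := by
    intro h
    have h1 := hsmax l₀ hl₀
    rw [h, norm_zero] at h1
    exact hcl₀ (norm_le_zero_iff.1 h1)
  -- `φ s` is a combination of the others
  have h1 : φ s = ∑ l ∈ J.erase s, (-(c l / c s)) • φ l := by
    rw [← add_sum_erase J _ hs] at hc
    have h2 : c s • φ s = - ∑ l ∈ J.erase s, c l • φ l := eq_neg_of_add_eq_zero_left hc
    have h3 : φ s = (c s)⁻¹ • (c s • φ s) := by rw [smul_smul, inv_mul_cancel₀ hcs, one_smul]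
    rw [h3, h2, smul_neg, smul_sum, ← sum_neg_distrib]
    refine sum_congr rfl fun l _ => ?_
    rw [smul_smul, neg_smul, div_eq_inv_mul]
  have h2 : J.erase s ∈ 𝓕 := by
    rw [h𝓕, mem_filter, mem_powerset]
    refine ⟨(erase_subset _ _).trans hJ.1, fun i hi => ?_⟩
    obtain ⟨b, hb, hbi⟩ := hJ.2 i hi
    refine ⟨fun l => if l ∈ J then b l + b s * (-(c l / c s)) else 0, fun l => ?_, ?_⟩
    · simp only
      split_ifs with hl
      · refine (IsUltrametricDist.norm_add_le_max _ _).trans (max_le (hb l) ?_)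
        rw [norm_mul, norm_neg, norm_div]
        have h4 : ‖c l‖ / ‖c s‖ ≤ 1 := by
          rw [div_le_one (norm_pos_iff.2 hcs)]
          exact hsmax l hl
        have h5 : 0 ≤ ‖c l‖ / ‖c s‖ := by positivity
        have h6 := hb s
        have h7 := norm_nonneg (b s)
        nlinarith
      · rw [norm_zero]
        exact zero_le_one
    · rw [hbi, ← add_sum_erase J _ hs, h1, smul_sum, ← sum_add_distrib]
      refine sum_congr rfl fun l hl => ?_
      simp only
      rw [if_pos (mem_of_mem_erase hl), smul_smul, ← add_smul, add_comm]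
  have h3 := hmin _ h2
  rw [card_erase_of_mem hs] at h3
  have h4 : 0 < J.card := card_pos.2 ⟨s, hs⟩
  omega

/-- linearly independent subfamilies are small -/
theorem card_le_of_indep [Module.Finite K W] {φ : I → W} {J : Finset I}
    (h : ∀ c : I → K, ∑ l ∈ J, c l • φ l = 0 → ∀ l ∈ J, c l = 0) : J.card ≤ Module.finrank K W := by
  classical
  have h1 : LinearIndependent K (fun l : {l // l ∈ J} => φ l.1) := by
    rw [Fintype.linearIndependent_iff]
    intro g hg l
    have h2 := h (fun l => if hl : l ∈ J then g ⟨l, hl⟩ else 0) (by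
      rw [← sum_attach]
      rw [← hg]
      refine sum_congr rfl fun l _ => ?_
      rw [dif_pos l.2]) l.1 l.2
    rw [dif_pos l.2] at h2
    exact h2
  have h2 := h1.fintype_card_le_finrank
  rwa [Fintype.card_coe] at h2

end

section

variable {K I : Type} [NormedField K] [IsUltrametricDist K] [Fintype I] [DecidableEq I] {n : ℕ}

open Classical in
/-- the coefficients of a functional -/
noncomputable def cf (f : I → ((Fin n → K) →ₗ[K] K)) (J : Finset I) (i : I) : I → K :=
  if h : ∃ c : I → K, f i = ∑ l ∈ J, c l • f l then h.choose else 0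

theorem cf_eq {f : I → ((Fin n → K) →ₗ[K] K)} {J : Finset I}
    (hJ : ∀ c : I → K, ∑ l ∈ J, c l • f l = 0 → ∀ l ∈ J, c l = 0) {i : I} {c : I → K} (hc : f i = ∑ l ∈ J, c l • f l)
    {l : I} (hl : l ∈ J) : cf f J i l = c l := by
  have h : ∃ c : I → K, f i = ∑ l ∈ J, c l • f l := ⟨c, hc⟩
  have h1 : f i = ∑ l ∈ J, cf f J i l • f l := by
    unfold cf
    rw [dif_pos h]
    exact h.choose_spec
  have h2 := hJ (fun l => cf f J i l - c l) (by
    have h3 : ∑ l ∈ J, (cf f J i l - c l) • f l = ∑ l ∈ J, cf f J i l • f l - ∑ l ∈ J, c l • f l := by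
      rw [← sum_sub_distrib]
      refine sum_congr rfl fun l _ => LinearMap.ext fun w => ?_
      rw [LinearMap.smul_apply, LinearMap.sub_apply, LinearMap.smul_apply, LinearMap.smul_apply, sub_smul]
    rw [h3, ← h1, ← hc, sub_self]) l hl
  exact sub_eq_zero.1 h2

/-- **The structure of the absolute values of linear functionals at a point.** -/
theorem ultra_structure (f : I → ((Fin n → K) →ₗ[K] K)) (v : Fin n → K) : ∃ J₀ J : Finset I, J₀.card ≤ n ∧ J.card ≤ n ∧
    (∀ i, f i v = 0 ↔ ∃ c : I → K, f i = ∑ l ∈ J₀, c l • f l) ∧ (∀ l ∈ J, f l v ≠ 0) ∧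
    ∀ i, f i v ≠ 0 → (∀ l ∈ J, ‖cf f J i l‖ * ‖f l v‖ ≤ ‖f i v‖) ∧ ∃ l ∈ J, ‖f i v‖ ≤ ‖cf f J i l‖ * ‖f l v‖ := by
  classical
  have hdim : Module.finrank K ((Fin n → K) →ₗ[K] K) = n := by
    have h1 : Module.finrank K ((Fin n → K) →ₗ[K] K) = Module.finrank K (Fin n → K) := Subspace.dual_finrank_eq
    rw [h1, Module.finrank_fin_fun]
  obtain ⟨J₀, hJ₀, hi₀, hg₀⟩ := unit_basis (K := K) f (univ.filter fun i => f i v = 0)
  obtain ⟨J, hJ, hi, hg⟩ := unit_basis (K := K) (fun i => (f i v)⁻¹ • f i) (univ.filter fun i => f i v ≠ 0)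
  have hJv : ∀ l ∈ J, f l v ≠ 0 := fun l hl => (mem_filter.1 (hJ hl)).2
  have hi' : ∀ c : I → K, ∑ l ∈ J, c l • f l = 0 → ∀ l ∈ J, c l = 0 := by
    intro c hc l hl
    have h1 := hi (fun l => c l * f l v) (by
      rw [← hc]
      refine sum_congr rfl fun l hl => ?_
      rw [smul_smul, mul_assoc, mul_inv_cancel₀ (hJv l hl), mul_one]) l hl
    exact (mul_eq_zero.1 h1).resolve_right (hJv l hl)
  refine ⟨J₀, J, ?_, ?_, fun i => ⟨fun h => ?_, fun h => ?_⟩, hJv, fun i hiv => ?_⟩
  · have := card_le_of_indep hi₀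
    rwa [hdim] at this
  · have := card_le_of_indep hi'
    rwa [hdim] at this
  · obtain ⟨c, -, hc⟩ := hg₀ i (mem_filter.2 ⟨mem_univ _, h⟩)
    exact ⟨c, hc⟩
  · obtain ⟨c, hc⟩ := h
    rw [hc, LinearMap.sum_apply]
    refine sum_eq_zero fun l hl => ?_
    rw [LinearMap.smul_apply, (mem_filter.1 (hJ₀ hl)).2, smul_zero]
  · obtain ⟨c, hc1, hc⟩ := hg i (mem_filter.2 ⟨mem_univ _, hiv⟩)
    have h1 : f i = ∑ l ∈ J, (f i v * c l * (f l v)⁻¹) • f l := by
      calc f i = f i v • ((f i v)⁻¹ • f i) := by rw [smul_smul, mul_inv_cancel₀ hiv, one_smul]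
        _ = f i v • ∑ l ∈ J, c l • ((f l v)⁻¹ • f l) := by rw [← hc]
        _ = ∑ l ∈ J, (f i v * c l * (f l v)⁻¹) • f l := by
          rw [smul_sum]
          refine sum_congr rfl fun l _ => ?_
          rw [smul_smul, smul_smul, mul_assoc]
    refine ⟨fun l hl => ?_, ?_⟩
    · rw [cf_eq hi' h1 hl, norm_mul, norm_mul, norm_inv]
      have h2 : ‖f l v‖ ≠ 0 := norm_ne_zero_iff.2 (hJv l hl)
      rw [mul_assoc, inv_mul_cancel₀ h2, mul_one]
      exact mul_le_of_le_one_right (norm_nonneg _) (hc1 l)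
    · have hJne : J.Nonempty := by
        rw [nonempty_iff_ne_empty]
        intro h
        rw [h, sum_empty] at h1
        rw [h1] at hiv
        exact hiv rfl
      have h2 : f i v = ∑ l ∈ J, cf f J i l * f l v := by
        calc f i v = (∑ l ∈ J, (f i v * c l * (f l v)⁻¹) • f l) v := by rw [← h1]
          _ = ∑ l ∈ J, (f i v * c l * (f l v)⁻¹) * f l v := by
            rw [LinearMap.sum_apply]
            rfl
          _ = ∑ l ∈ J, cf f J i l * f l v := by
            refine sum_congr rfl fun l hl => ?_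
            rw [cf_eq hi' h1 hl]
      obtain ⟨l, hl, h3⟩ := IsUltrametricDist.exists_norm_finsetSum_le_of_nonempty hJne fun l => cf f J i l * f l v
      refine ⟨l, hl, ?_⟩
      rw [h2]
      rw [norm_mul] at h3
      exact h3

end

end Pool.Agent.Zk39.MC
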